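import Mathlib

/-!
# Primitive sets under power weightings (MP_def192_nt): definitions and the two key statements

`StmtB` is a window version of Behrend's theorem, `StmtR` compares the densities of primitive sets
at comparable scales.  Proofs on paper: see `notes.md` in this folder.
-/

namespace Pool.Agent.R466.PD

open Finset

/-- `A` is primitive: no element divides a different element. -/
def Prim (A : Finset ℕ) : Prop := ∀ a ∈ A, ∀ b ∈ A, a ∣ b → a = b

/-- The total weight `∑_{a ∈ A} a^{-σ}`. -/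
noncomputable def W (σ : ℝ) (A : Finset ℕ) : ℝ := ∑ a ∈ A, (a : ℝ) ^ (-σ)

/-- Window version of Behrend's theorem. -/
def StmtB : Prop :=
  ∀ ε : ℝ, 0 < ε → ∃ C : ℝ, ∀ x n : ℕ, 1 ≤ x → x ≤ n → ∀ A : Finset ℕ, A ⊆ Icc x n → Prim A →
    ∑ a ∈ A, (1 : ℝ) / a ≤ ε * Real.log ((n : ℝ) / x) + C

/-- Scaling lemma: a primitive subset of `[t]` can be scaled up to a primitive subset of `[n]` of
almost the same density, `n / K ≤ t ≤ n`, `n` large. -/
def StmtR : Prop :=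
  ∀ σ : ℝ, 0 ≤ σ → σ < 1 → ∀ η : ℝ, 0 < η → ∀ K : ℕ, 1 ≤ K → ∃ n₀ : ℕ, ∀ n t : ℕ, n₀ ≤ n →
    t ≤ n → n ≤ K * t → ∀ A : Finset ℕ, A ⊆ Icc 1 t → Prim A →
      ∃ B : Finset ℕ, B ⊆ Icc 1 n ∧ Prim B ∧
        W σ A / W σ (Icc 1 t) ≤ W σ B / W σ (Icc 1 n) + η

end Pool.Agent.R466.PD
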