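import Mathlib
import Pool.Agent.R466.PD.Defs

/-!
# Window version of Behrend's theorem  (helper258 for helper466)
-/

namespace Pool.Agent.R466.PD

open Finset

/-- Harmonic window sum. -/
theorem harm (j0 J : ℕ) (h0 : 1 ≤ j0) (h : j0 ≤ J) :
    ∑ j ∈ Icc j0 J, (1 : ℝ) / j ≤ 1 + Real.log ((J : ℝ) / j0) := by
  induction J, h using Nat.le_induction with
  | base =>
    have h1 : (1 : ℝ) ≤ j0 := by exact_mod_cast h0
    rw [Icc_self, sum_singleton, div_self (by positivity), Real.log_one, add_zero]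
    rw [div_le_one (by positivity)]
    exact h1
  | succ J hJ ih =>
    have h1 : (1 : ℝ) ≤ j0 := by exact_mod_cast h0
    have h2 : (1 : ℝ) ≤ J := by exact_mod_cast h0.trans hJ
    rw [sum_Icc_succ_top (by omega)]
    have h3 : Real.log (((J + 1 : ℕ) : ℝ) / j0) = Real.log ((J : ℝ) / j0) + Real.log (((J : ℝ) + 1) / J) := by
      rw [← Real.log_mul (by positivity) (by positivity)]
      congr 1
      push_cast
      field_simp
    have h4 := Real.one_sub_inv_le_log_of_pos (x := ((J : ℝ) + 1) / J) (by positivity)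
    have h5 : 1 - (((J : ℝ) + 1) / J)⁻¹ = 1 / ((J + 1 : ℕ) : ℝ) := by
      push_cast
      field_simp
      ring
    rw [h5] at h4
    rw [h3]
    linarith

/-- Harmonic sum over the multiples of `d` in a window. -/
theorem harm_dvd (x y d : ℕ) (hx : 1 ≤ x) (hd : 1 ≤ d) (hxy : x ≤ y) :
    ∑ m ∈ (Icc x y).filter (d ∣ ·), (1 : ℝ) / m ≤ (1 / d) * (1 + Real.log ((y : ℝ) / x)) := by
  have hx' : (1 : ℝ) ≤ x := by exact_mod_cast hx
  have hd' : (1 : ℝ) ≤ d := by exact_mod_cast hd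
  have hxy' : (x : ℝ) ≤ y := by exact_mod_cast hxy
  have hlog : 0 ≤ Real.log ((y : ℝ) / x) :=
    Real.log_nonneg (by rw [le_div_iff₀ (by positivity)]; linarith)
  set j0 : ℕ := (x + d - 1) / d with hj0
  set J : ℕ := y / d with hJ
  have hsub : (Icc x y).filter (d ∣ ·) ⊆ (Icc j0 J).image (fun j => d * j) := by
    intro m hm
    rw [mem_filter, mem_Icc] at hm
    obtain ⟨⟨h1, h2⟩, j, rfl⟩ := hm
    rw [mem_image]
    refine ⟨j, mem_Icc.2 ⟨?_, ?_⟩, rfl⟩
    · rw [hj0]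
      have : (x + d - 1) / d < j + 1 := by
        rw [Nat.div_lt_iff_lt_mul (by omega)]
        have : (j + 1) * d = d * j + d := by ring
        omega
      omega
    · rw [hJ, Nat.le_div_iff_mul_le (by omega)]
      rw [mul_comm]; exact h2
  have hinj : Set.InjOn (fun j : ℕ => d * j) (Icc j0 J : Finset ℕ) := by
    intro a _ b _ hab
    exact Nat.eq_of_mul_eq_mul_left (by omega) hab
  refine (sum_le_sum_of_subset_of_nonneg hsub fun m _ _ => by positivity).trans ?_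
  rw [sum_image hinj]
  have h1 : ∀ j : ℕ, (1 : ℝ) / ((d * j : ℕ) : ℝ) = (1 / d) * (1 / j) := by
    intro j
    push_cast
    rw [one_div_mul_one_div]
  simp only [h1]
  rw [← mul_sum]
  refine mul_le_mul_of_nonneg_left ?_ (by positivity)
  rcases lt_or_ge J j0 with h | h
  · rw [Icc_eq_empty (by omega), sum_empty]
    linarith
  · have hj0' : 1 ≤ j0 := by
      rw [hj0, Nat.le_div_iff_mul_le (by omega)]; omega
    refine (harm j0 J hj0' h).trans ?_
    have h2 : (J : ℝ) / j0 ≤ y / x := by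
      have h3 : (1 : ℝ) ≤ j0 := by exact_mod_cast hj0'
      rw [div_le_div_iff₀ (by positivity) (by positivity)]
      have h4 : J * d ≤ y := Nat.div_mul_le_self y d
      have h5 : x ≤ d * j0 := by
        have := Nat.lt_div_mul_add (a := x + d - 1) (b := d) (by omega)
        rw [← hj0, mul_comm] at this
        omega
      have h6 : J * x ≤ y * j0 := by
        have h7 : (J * x) * d ≤ (y * j0) * d := by
          calc (J * x) * d = (J * d) * x := by ring
            _ ≤ y * (d * j0) := Nat.mul_le_mul h4 h5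
            _ = (y * j0) * d := by ring
        exact Nat.le_of_mul_le_mul_right h7 (by omega)
      exact_mod_cast h6
    have h3 : 0 < (J : ℝ) / j0 := by
      have h4 : (1 : ℝ) ≤ j0 := by exact_mod_cast hj0'
      have h5 : (1 : ℝ) ≤ J := by exact_mod_cast hj0'.trans h
      positivity
    have := Real.log_le_log h3 h2
    linarith

/-- `C(2m, m)² (2m+1) ≤ 16^m`. -/
theorem cb_sq (m : ℕ) : (2 * m + 1) * (Nat.centralBinom m) ^ 2 ≤ 16 ^ m := by
  induction m with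
  | zero => simp
  | succ m ih =>
    have h1 := Nat.succ_mul_centralBinom_succ m
    -- (m+1) * cb (m+1) = 2 * (2m+1) * cb m
    have h2 : (m + 1) ^ 2 * ((2 * (m + 1) + 1) * (Nat.centralBinom (m + 1)) ^ 2)
        ≤ (m + 1) ^ 2 * 16 ^ (m + 1) := by
      calc (m + 1) ^ 2 * ((2 * (m + 1) + 1) * (Nat.centralBinom (m + 1)) ^ 2)
          = (2 * m + 3) * ((m + 1) * Nat.centralBinom (m + 1)) ^ 2 := by ring
        _ = (2 * m + 3) * (2 * (2 * m + 1) * Nat.centralBinom m) ^ 2 := by rw [h1]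
        _ = 4 * ((2 * m + 3) * (2 * m + 1)) * ((2 * m + 1) * (Nat.centralBinom m) ^ 2) := by ring
        _ ≤ 4 * (4 * (m + 1) ^ 2) * 16 ^ m := by
          refine Nat.mul_le_mul (Nat.mul_le_mul_left _ ?_) ih
          nlinarith
        _ = (m + 1) ^ 2 * 16 ^ (m + 1) := by ring
    exact Nat.le_of_mul_le_mul_left h2 (by positivity)

/-- `C(k, k/2)² (k+1) ≤ 4^k`. -/
theorem mid_sq (k : ℕ) : (k + 1) * (k.choose (k / 2)) ^ 2 ≤ 4 ^ k := by
  rcases Nat.even_or_odd' k with ⟨m, rfl | rfl⟩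
  · have h := cb_sq m
    rw [Nat.centralBinom_eq_two_mul_choose] at h
    rw [show 2 * m / 2 = m by omega, pow_mul]
    norm_num
    exact h
  · have h := cb_sq (m + 1)
    have h1 : Nat.centralBinom (m + 1) = 2 * (2 * m + 1).choose m := by
      rw [Nat.centralBinom_eq_two_mul_choose]
      rw [show 2 * (m + 1) = (2 * m + 1) + 1 by ring, Nat.choose_succ_succ']
      have : (2 * m + 1).choose (m + 1) = (2 * m + 1).choose m := by
        apply Nat.choose_symm_of_eq_add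
        omega
      omega
    rw [h1] at h
    rw [show (2 * m + 1) / 2 = m by omega]
    have h2 : (4 : ℕ) ^ (2 * m + 1) * 4 = 16 ^ (m + 1) := by
      rw [← pow_succ, show 2 * m + 1 + 1 = 2 * (m + 1) by ring, pow_mul]
      norm_num
    nlinarith [sq_nonneg ((2 * m + 1).choose m)]

/-- `C(k, k/2) ≤ 2^{k₀} + δ 2^k`. -/
theorem mid_le (δ : ℝ) (hδ : 0 < δ) : ∃ k0 : ℕ, ∀ k : ℕ,
    ((k.choose (k / 2) : ℕ) : ℝ) ≤ 2 ^ k0 + δ * 2 ^ k := by
  obtain ⟨k0, hk0⟩ := exists_nat_gt (1 / δ ^ 2)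
  refine ⟨k0, fun k => ?_⟩
  rcases lt_or_ge k k0 with h | h
  · have h1 : k.choose (k / 2) ≤ 2 ^ k := Nat.choose_le_two_pow _ _
    have h2 : (2 : ℕ) ^ k ≤ 2 ^ k0 := Nat.pow_le_pow_right (by norm_num) h.le
    have h3 : ((k.choose (k / 2) : ℕ) : ℝ) ≤ 2 ^ k0 := by exact_mod_cast h1.trans h2
    have : 0 < δ * 2 ^ k := by positivity
    linarith
  · have h1 : (((k + 1) * (k.choose (k / 2)) ^ 2 : ℕ) : ℝ) ≤ ((4 ^ k : ℕ) : ℝ) := by
      exact_mod_cast mid_sq k
    push_cast at h1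
    have h2 : (1 : ℝ) ≤ δ ^ 2 * (k + 1) := by
      have h3 : (k0 : ℝ) ≤ k := by exact_mod_cast h
      have h4 : 1 / δ ^ 2 < k + 1 := by linarith
      rw [div_lt_iff₀ (by positivity)] at h4
      linarith
    have h3 : ((k.choose (k / 2) : ℕ) : ℝ) ^ 2 ≤ (δ * 2 ^ k) ^ 2 := by
      have h4 : (δ * 2 ^ k) ^ 2 = δ ^ 2 * 4 ^ k := by
        rw [mul_pow, ← pow_mul, mul_comm k 2, pow_mul]
        norm_num
      rw [h4]
      calc ((k.choose (k / 2) : ℕ) : ℝ) ^ 2 ≤ (δ ^ 2 * (k + 1)) * ((k.choose (k / 2) : ℕ) : ℝ) ^ 2 :=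
            le_mul_of_one_le_left (by positivity) h2
        _ = δ ^ 2 * ((k + 1) * ((k.choose (k / 2) : ℕ) : ℝ) ^ 2) := by ring
        _ ≤ δ ^ 2 * 4 ^ k := mul_le_mul_of_nonneg_left h1 (by positivity)
    have h5 := abs_le_of_sq_le_sq h3 (by positivity)
    have h6 := (le_abs_self _).trans h5
    have h7 : (0 : ℝ) < 2 ^ k0 := by positivity
    linarith

/-- A finite set of primes with a large value of `∏ (1 + 1/p)`. -/
theorem exists_primes (M : ℝ) : ∃ P : Finset ℕ, (∀ p ∈ P, p.Prime) ∧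
    M ≤ ∏ p ∈ P, (1 + (1 : ℝ) / p) := by
  have h1 := not_summable_one_div_on_primes
  rw [not_summable_iff_tendsto_nat_atTop_of_nonneg] at h1
  · obtain ⟨N, hN⟩ := (h1.eventually_ge_atTop M).exists
    refine ⟨(range N).filter Nat.Prime, fun p hp => (mem_filter.1 hp).2, hN.trans ?_⟩
    have h2 : ∑ i ∈ range N, Set.indicator {p : ℕ | Nat.Prime p} (fun n : ℕ => (1 : ℝ) / n) i
        = ∑ p ∈ (range N).filter Nat.Prime, (1 : ℝ) / p := by
      rw [sum_filter]
      refine sum_congr rfl fun i _ => ?_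
      by_cases h : i.Prime
      · rw [Set.indicator_of_mem (by exact h), if_pos h]
      · rw [Set.indicator_of_notMem (by exact h), if_neg h]
    rw [h2]
    have h3 : ∀ S : Finset ℕ, 1 + ∑ p ∈ S, (1 : ℝ) / p ≤ ∏ p ∈ S, (1 + (1 : ℝ) / p) := by
      intro S
      induction S using Finset.induction_on with
      | empty => simp
      | insert a S ha ih =>
        rw [sum_insert ha, prod_insert ha]
        have h4 : (0 : ℝ) ≤ 1 / a := by positivity
        have h5 : (0 : ℝ) ≤ ∑ p ∈ S, (1 : ℝ) / p := sum_nonneg fun p _ => by positivity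
        have h6 : (1 : ℝ) ≤ ∏ p ∈ S, (1 + (1 : ℝ) / p) := by linarith
        nlinarith
    have := h3 ((range N).filter Nat.Prime)
    linarith
  · intro n
    exact Set.indicator_nonneg (fun _ _ => by positivity) n

/-- Sperner's theorem for subsets of a finite set. -/
theorem sperner_sub (S : Finset ℕ) (F : Finset (Finset ℕ)) (hF : ∀ Q ∈ F, Q ⊆ S)
    (hanti : ∀ Q ∈ F, ∀ Q' ∈ F, Q ⊆ Q' → Q = Q') : #F ≤ (#S).choose (#S / 2) := by
  classical
  set G : Finset (Finset {p // p ∈ S}) := F.image (fun Q => Q.subtype (· ∈ S)) with hG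
  have hmap : ∀ Q ∈ F, (Q.subtype (· ∈ S)).map (Function.Embedding.subtype _) = Q := by
    intro Q hQ
    exact subtype_map_of_mem fun x hx => hF Q hQ hx
  have hinj : Set.InjOn (fun Q : Finset ℕ => Q.subtype (· ∈ S)) (F : Set (Finset ℕ)) := by
    intro Q hQ Q' hQ' h
    have h1 := hmap Q hQ
    have h2 := hmap Q' hQ'
    simp only at h
    rw [← h1, ← h2, h]
  have hcard : #G = #F := card_image_of_injOn hinj
  have hA : IsAntichain (· ⊆ ·) (G : Set (Finset {p // p ∈ S})) := by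
    intro X hX Y hY hne hsub
    rw [hG, mem_coe, mem_image] at hX hY
    obtain ⟨Q, hQ, rfl⟩ := hX
    obtain ⟨Q', hQ', rfl⟩ := hY
    apply hne
    have h1 : Q ⊆ Q' := by
      rw [← hmap Q hQ, ← hmap Q' hQ']
      exact map_subset_map.2 hsub
    rw [hanti Q hQ Q' hQ' h1]
  have := hA.sperner
  rw [hcard, Fintype.card_coe] at this
  exact this

/-- The number of representations `m = a * ∏ Q`. -/
theorem card_rep (P : Finset ℕ) (hP : ∀ p ∈ P, p.Prime) (A : Finset ℕ) (hA : Prim A) (m : ℕ)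
    (hm : m ≠ 0) :
    #((A ×ˢ P.powerset).filter (fun q => q.1 * ∏ p ∈ q.2, p = m))
      ≤ (#(P.filter (· ∣ m))).choose (#(P.filter (· ∣ m)) / 2) := by
  classical
  set F : Finset (Finset ℕ) :=
    ((A ×ˢ P.powerset).filter (fun q => q.1 * ∏ p ∈ q.2, p = m)).image Prod.snd with hF
  have hpos : ∀ Q ⊆ P, 0 < ∏ p ∈ Q, p := fun Q hQ => prod_pos fun p hp => (hP p (hQ hp)).pos
  have hmem : ∀ Q ∈ F, Q ⊆ P ∧ ∃ a ∈ A, a * ∏ p ∈ Q, p = m := by
    intro Q hQ
    rw [hF, mem_image] at hQ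
    obtain ⟨⟨a, Q'⟩, h1, rfl⟩ := hQ
    rw [mem_filter, mem_product, mem_powerset] at h1
    exact ⟨h1.1.2, a, h1.1.1, h1.2⟩
  have hcard : #((A ×ˢ P.powerset).filter (fun q => q.1 * ∏ p ∈ q.2, p = m)) = #F := by
    rw [hF, card_image_of_injOn]
    intro q hq q' hq' h
    rw [mem_coe, mem_filter, mem_product, mem_powerset] at hq hq'
    have h1 : q.1 * ∏ p ∈ q.2, p = q'.1 * ∏ p ∈ q.2, p := by
      rw [hq.2]
      have := hq'.2
      rw [← h] at this
      exact this.symm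
    have h2 := Nat.eq_of_mul_eq_mul_right (hpos _ hq.1.2) h1
    exact Prod.ext h2 h
  rw [hcard]
  refine sperner_sub _ F ?_ ?_
  · intro Q hQ p hp
    obtain ⟨h1, a, _, h2⟩ := hmem Q hQ
    rw [mem_filter]
    refine ⟨h1 hp, ?_⟩
    rw [← h2]
    exact (dvd_prod_of_mem _ hp).mul_left a
  · intro Q hQ Q' hQ' hsub
    obtain ⟨h1, a, ha, h2⟩ := hmem Q hQ
    obtain ⟨h1', a', ha', h2'⟩ := hmem Q' hQ'
    have h3 : (∏ p ∈ Q' \ Q, p) * ∏ p ∈ Q, p = ∏ p ∈ Q', p := prod_sdiff hsub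
    have h4 : a * ∏ p ∈ Q, p = (a' * ∏ p ∈ Q' \ Q, p) * ∏ p ∈ Q, p := by
      rw [mul_assoc, h3, h2, h2']
    have h5 : a = a' * ∏ p ∈ Q' \ Q, p := Nat.eq_of_mul_eq_mul_right (hpos _ h1) h4
    have h6 : a' = a := hA a' ha' a ha ⟨_, h5⟩
    have ha0 : 0 < a' := by
      rcases Nat.eq_zero_or_pos a' with h | h
      · rw [h, zero_mul] at h2'
        exact absurd h2'.symm hm
      · exact h
    have h7 : ∏ p ∈ Q' \ Q, p = 1 := by
      have h8 : a' * ∏ p ∈ Q' \ Q, p = a' * 1 := by rw [← h5, h6, mul_one]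
      exact Nat.eq_of_mul_eq_mul_left ha0 h8
    refine subset_antisymm hsub fun p hp => ?_
    by_contra hpQ
    have h8 : p ∣ ∏ p ∈ Q' \ Q, p := dvd_prod_of_mem _ (mem_sdiff.2 ⟨hp, hpQ⟩)
    rw [h7] at h8
    exact (hP p (h1' hp)).one_lt.ne' (Nat.dvd_one.1 h8)

theorem stmtB : StmtB := by
  classical
  intro ε hε
  obtain ⟨k0, hk0⟩ := mid_le (ε / 2) (by positivity)
  obtain ⟨P, hP, hV⟩ := exists_primes (2 ^ k0 / (ε / 2))
  set V : ℝ := ∏ p ∈ P, (1 + (1 : ℝ) / p) with hVdef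
  set D : ℕ := ∏ p ∈ P, p with hD
  have hDpos : 0 < D := prod_pos fun p hp => (hP p hp).pos
  have hV0 : 0 < V := prod_pos fun p _ => by positivity
  have hk0V : (2 : ℝ) ^ k0 ≤ ε / 2 * V := by
    rw [div_le_iff₀ (by positivity)] at hV
    linarith
  refine ⟨ε * (1 + Real.log D), fun x n hx hxn A hA hprim => ?_⟩
  have hVsum : V = ∑ Q ∈ P.powerset, (1 : ℝ) / ((∏ p ∈ Q, p : ℕ) : ℝ) := by
    rw [hVdef, prod_one_add]
    refine sum_congr rfl fun Q _ => ?_
    push_cast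
    rw [prod_div_distrib, prod_const_one]
  set LG : ℝ := 1 + Real.log (((n * D : ℕ) : ℝ) / x) with hLG
  have hx' : (1 : ℝ) ≤ x := by exact_mod_cast hx
  have hn' : (1 : ℝ) ≤ n := by exact_mod_cast hx.trans hxn
  have hD' : (1 : ℝ) ≤ D := by exact_mod_cast hDpos
  have hxnD : x ≤ n * D := hxn.trans (Nat.le_mul_of_pos_right n hDpos)
  set M : Finset ℕ := Icc x (n * D) with hM
  -- the double count
  have hmaps : ∀ q ∈ A ×ˢ P.powerset, q.1 * ∏ p ∈ q.2, p ∈ M := by
    intro q hq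
    rw [mem_product, mem_powerset] at hq
    have h1 := mem_Icc.1 (hA hq.1)
    have h2 : 0 < ∏ p ∈ q.2, p := prod_pos fun p hp => (hP p (hq.2 hp)).pos
    have h3 : ∏ p ∈ q.2, p ≤ D := Nat.le_of_dvd hDpos (prod_dvd_prod_of_subset _ _ _ hq.2)
    rw [hM, mem_Icc]
    exact ⟨h1.1.trans (Nat.le_mul_of_pos_right _ h2), Nat.mul_le_mul h1.2 h3⟩
  have hLV : (∑ a ∈ A, (1 : ℝ) / a) * V = ∑ m ∈ M,
      (#((A ×ˢ P.powerset).filter (fun q => q.1 * ∏ p ∈ q.2, p = m)) : ℝ) * (1 / m) := by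
    rw [hVsum, sum_mul_sum, ← sum_product',
      ← sum_fiberwise_of_maps_to hmaps]
    refine sum_congr rfl fun m _ => ?_
    rw [← nsmul_eq_mul, ← sum_const]
    refine sum_congr rfl fun q hq => ?_
    rw [mem_filter] at hq
    rw [one_div_mul_one_div, ← hq.2]
    push_cast
    rfl
  have hbound : ∀ m ∈ M,
      (#((A ×ˢ P.powerset).filter (fun q => q.1 * ∏ p ∈ q.2, p = m)) : ℝ) * (1 / m)
        ≤ 2 ^ k0 * (1 / m) + ε / 2 * (#(P.powerset.filter (fun Q => (∏ p ∈ Q, p) ∣ m)) * (1 / m)) := by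
    intro m hm
    rw [hM, mem_Icc] at hm
    have hm0 : m ≠ 0 := by omega
    have h1 := card_rep P hP A hprim m hm0
    have h2 := hk0 (#(P.filter (· ∣ m)))
    have h3 : 2 ^ #(P.filter (· ∣ m)) ≤ #(P.powerset.filter (fun Q => (∏ p ∈ Q, p) ∣ m)) := by
      rw [← card_powerset]
      refine card_le_card fun Q hQ => ?_
      rw [mem_powerset] at hQ
      rw [mem_filter, mem_powerset]
      refine ⟨hQ.trans (filter_subset _ _), ?_⟩
      refine prod_primes_dvd m (fun p hp => (hP p (mem_filter.1 (hQ hp)).1).prime) fun p hp => ?_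
      exact (mem_filter.1 (hQ hp)).2
    have h1' : (#((A ×ˢ P.powerset).filter (fun q => q.1 * ∏ p ∈ q.2, p = m)) : ℝ)
        ≤ (((#(P.filter (· ∣ m))).choose (#(P.filter (· ∣ m)) / 2) : ℕ) : ℝ) := by exact_mod_cast h1
    have h3' : (2 : ℝ) ^ #(P.filter (· ∣ m))
        ≤ (#(P.powerset.filter (fun Q => (∏ p ∈ Q, p) ∣ m)) : ℝ) := by exact_mod_cast h3
    have hm1 : (0 : ℝ) ≤ 1 / m := by positivity
    calc (#((A ×ˢ P.powerset).filter (fun q => q.1 * ∏ p ∈ q.2, p = m)) : ℝ) * (1 / m)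
        ≤ (2 ^ k0 + ε / 2 * 2 ^ #(P.filter (· ∣ m))) * (1 / m) :=
          mul_le_mul_of_nonneg_right (h1'.trans h2) hm1
      _ ≤ (2 ^ k0 + ε / 2 * (#(P.powerset.filter (fun Q => (∏ p ∈ Q, p) ∣ m)) : ℝ)) * (1 / m) := by
          refine mul_le_mul_of_nonneg_right ?_ hm1
          have := mul_le_mul_of_nonneg_left h3' (show (0 : ℝ) ≤ ε / 2 by positivity)
          linarith
      _ = _ := by ring
  have hsum1 : ∑ m ∈ M, (1 : ℝ) / m ≤ LG := by
    have := harm_dvd x (n * D) 1 hx le_rfl hxnD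
    simpa [hM, hLG] using this
  have hsum2 : ∑ m ∈ M, ((#(P.powerset.filter (fun Q => (∏ p ∈ Q, p) ∣ m)) : ℝ) * (1 / m))
      ≤ V * LG := by
    have h1 : ∀ m ∈ M, ((#(P.powerset.filter (fun Q => (∏ p ∈ Q, p) ∣ m)) : ℝ) * (1 / m))
        = ∑ Q ∈ P.powerset, if (∏ p ∈ Q, p) ∣ m then (1 : ℝ) / m else 0 := by
      intro m _
      rw [← sum_filter, sum_const, nsmul_eq_mul]
    rw [sum_congr rfl h1, sum_comm, hVsum, sum_mul]
    refine sum_le_sum fun Q hQ => ?_
    rw [mem_powerset] at hQ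
    rw [← sum_filter]
    exact harm_dvd x (n * D) _ hx (prod_pos fun p hp => (hP p (hQ hp)).pos) hxnD
  have hLGnn : 0 ≤ LG := by
    have h1 : 0 ≤ ∑ m ∈ M, (1 : ℝ) / m := sum_nonneg fun m _ => by positivity
    linarith
  have hmain : (∑ a ∈ A, (1 : ℝ) / a) * V ≤ (ε * LG) * V := by
    rw [hLV]
    refine (sum_le_sum hbound).trans ?_
    rw [sum_add_distrib, ← mul_sum, ← mul_sum]
    have h1 := mul_le_mul_of_nonneg_left hsum1 (show (0 : ℝ) ≤ 2 ^ k0 by positivity)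
    have h2 := mul_le_mul_of_nonneg_left hsum2 (show (0 : ℝ) ≤ ε / 2 by positivity)
    have h3 := mul_le_mul_of_nonneg_right hk0V hLGnn
    nlinarith
  have hmain' := le_of_mul_le_mul_right hmain hV0
  refine hmain'.trans ?_
  have h1 : Real.log (((n * D : ℕ) : ℝ) / x) = Real.log ((n : ℝ) / x) + Real.log D := by
    rw [← Real.log_mul (by positivity) (by positivity)]
    congr 1
    push_cast
    ring
  rw [hLG, h1]
  linarith

end Pool.Agent.R466.PD
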