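import Pool.Agent.R466.PD.Defs

/-!
Elementary estimates for power sums.
-/

namespace Pool.Agent.R466.PD

open Finset

/-- `W σ` of `[t]`. -/
noncomputable abbrev SS (σ : ℝ) (t : ℕ) : ℝ := W σ (Icc 1 t)

lemma SS_succ (σ : ℝ) (t : ℕ) : SS σ (t + 1) = SS σ t + ((t + 1 : ℕ) : ℝ) ^ (-σ) := by
  unfold SS W
  rw [Finset.sum_Icc_succ_top (by omega)]

lemma SS_zero (σ : ℝ) : SS σ 0 = 0 := by
  simp [SS, W]

lemma rpow_split {x : ℝ} (hx : 0 < x) (b : ℝ) : x ^ b / x = x ^ (b - 1) := by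
  rw [Real.rpow_sub hx, Real.rpow_one]

lemma bern_up {β : ℝ} (h0 : 0 ≤ β) (h1 : β ≤ 1) {m : ℝ} (hm : 0 < m) :
    (m + 1) ^ β ≤ m ^ β + β * m ^ (β - 1) := by
  have h := rpow_one_add_le_one_add_mul_self (s := 1 / m) (p := β)
    (by have : 0 < 1 / m := by positivity
        linarith) h0 h1
  have e : m + 1 = m * (1 + 1 / m) := by field_simp
  rw [e, Real.mul_rpow hm.le (by positivity), ← rpow_split hm]
  calc m ^ β * (1 + 1 / m) ^ β ≤ m ^ β * (1 + β * (1 / m)) :=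
        mul_le_mul_of_nonneg_left h (by positivity)
    _ = m ^ β + β * (m ^ β / m) := by ring

lemma bern_down {β : ℝ} (h0 : 0 ≤ β) (h1 : β ≤ 1) {m : ℝ} (hm : 0 ≤ m) :
    m ^ β ≤ (m + 1) ^ β - β * (m + 1) ^ (β - 1) := by
  have hm1 : 0 < m + 1 := by linarith
  have h := rpow_one_add_le_one_add_mul_self (s := -(1 / (m + 1))) (p := β)
    (by have : 1 / (m + 1) ≤ 1 := by rw [div_le_one hm1]; linarith
        linarith) h0 h1
  have hnn : 0 ≤ 1 + -(1 / (m + 1)) := by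
    have : 1 / (m + 1) ≤ 1 := by rw [div_le_one hm1]; linarith
    linarith
  have e : m = (m + 1) * (1 + -(1 / (m + 1))) := by field_simp; ring
  calc m ^ β = ((m + 1) * (1 + -(1 / (m + 1)))) ^ β := by rw [← e]
    _ = (m + 1) ^ β * (1 + -(1 / (m + 1))) ^ β := Real.mul_rpow hm1.le hnn
    _ ≤ (m + 1) ^ β * (1 + β * -(1 / (m + 1))) := mul_le_mul_of_nonneg_left h (by positivity)
    _ = (m + 1) ^ β - β * ((m + 1) ^ β / (m + 1)) := by ring
    _ = (m + 1) ^ β - β * (m + 1) ^ (β - 1) := by rw [rpow_split hm1]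

lemma SS_le {σ : ℝ} (h0 : 0 ≤ σ) (h1 : σ < 1) (t : ℕ) :
    SS σ t ≤ (t : ℝ) ^ (1 - σ) / (1 - σ) := by
  have hβ : 0 < 1 - σ := by linarith
  induction t with
  | zero =>
    rw [SS_zero]
    positivity
  | succ t ih =>
    rw [SS_succ]
    have h := bern_down (β := 1 - σ) hβ.le (by linarith) (m := (t : ℝ)) (by positivity)
    have e : 1 - σ - 1 = -σ := by ring
    rw [e] at h
    push_cast
    rw [le_div_iff₀ hβ] at ih ⊢
    nlinarith

lemma SS_ge {σ : ℝ} (h0 : 0 ≤ σ) (h1 : σ < 1) (t : ℕ) :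
    (((t : ℝ) + 1) ^ (1 - σ) - 1) / (1 - σ) ≤ SS σ t := by
  have hβ : 0 < 1 - σ := by linarith
  induction t with
  | zero =>
    rw [SS_zero]
    simp
  | succ t ih =>
    rw [SS_succ]
    have h := bern_up (β := 1 - σ) hβ.le (by linarith) (m := (t : ℝ) + 1) (by positivity)
    have e : 1 - σ - 1 = -σ := by ring
    rw [e] at h
    push_cast
    rw [div_le_iff₀ hβ] at ih ⊢
    nlinarith

lemma W_nonneg (σ : ℝ) (A : Finset ℕ) : 0 ≤ W σ A :=
  Finset.sum_nonneg fun a _ => by positivity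

lemma W_mono (σ : ℝ) {A B : Finset ℕ} (h : A ⊆ B) : W σ A ≤ W σ B :=
  Finset.sum_le_sum_of_subset_of_nonneg h fun a _ _ => by positivity

lemma SS_pos (σ : ℝ) {t : ℕ} (ht : 1 ≤ t) : 0 < SS σ t := by
  have h1 : W σ {1} ≤ SS σ t := W_mono σ (by
    intro a ha
    rw [Finset.mem_singleton] at ha
    rw [Finset.mem_Icc]
    omega)
  have h2 : W σ {1} = 1 := by simp [W]
  linarith

/-- Abel summation. -/
lemma abel (n : ℕ) (A : Finset ℕ) (hA : A ⊆ Icc 1 n) (w h : ℕ → ℝ) :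
    ∑ a ∈ A, w a * h a = ∑ t ∈ Ico 1 n, (h t - h (t + 1)) * (∑ a ∈ A.filter (· ≤ t), w a) +
      h n * ∑ a ∈ A, w a := by
  have h1 : ∀ a ∈ A, ∑ t ∈ (Ico 1 n).filter (a ≤ ·), (h t - h (t + 1)) = h a - h n := by
    intro a ha
    have ha' := Finset.mem_Icc.1 (hA ha)
    have e : (Ico 1 n).filter (a ≤ ·) = Ico a n := by
      ext t
      simp only [Finset.mem_filter, Finset.mem_Ico]
      omega
    rw [e]
    have h2 := Finset.sum_Ico_sub h ha'.2
    have h3 : ∑ t ∈ Ico a n, (h t - h (t + 1)) = -∑ t ∈ Ico a n, (h (t + 1) - h t) := by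
      rw [← Finset.sum_neg_distrib]
      exact Finset.sum_congr rfl fun t _ => by ring
    rw [h3, h2]
    ring
  have h2 : ∑ t ∈ Ico 1 n, (h t - h (t + 1)) * (∑ a ∈ A.filter (· ≤ t), w a) =
      ∑ a ∈ A, w a * (h a - h n) := by
    have e1 : ∀ t ∈ Ico 1 n, (h t - h (t + 1)) * (∑ a ∈ A.filter (· ≤ t), w a) =
        ∑ a ∈ A, if a ≤ t then w a * (h t - h (t + 1)) else 0 := by
      intro t _
      rw [Finset.mul_sum, Finset.sum_filter]
      refine Finset.sum_congr rfl fun a _ => ?_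
      split_ifs <;> ring
    rw [Finset.sum_congr rfl e1, Finset.sum_comm]
    refine Finset.sum_congr rfl fun a ha => ?_
    rw [← h1 a ha, Finset.mul_sum, Finset.sum_filter]
  rw [h2, Finset.mul_sum, ← Finset.sum_add_distrib]
  exact Finset.sum_congr rfl fun a _ => by ring

lemma diff_ge {δ : ℝ} (h0 : 0 < δ) (h1 : δ ≤ 1) {t : ℕ} (ht : 1 ≤ t) :
    δ * ((t : ℝ) + 1) ^ (-δ - 1) ≤ (t : ℝ) ^ (-δ) - ((t : ℝ) + 1) ^ (-δ) := by
  have htp : (0 : ℝ) < t := by exact_mod_cast ht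
  have h := bern_down (β := δ) h0.le h1 (m := (t : ℝ)) htp.le
  -- t^δ ≤ (t+1)^δ (1 - δ/(t+1))
  have e1 : ((t : ℝ) + 1) ^ (δ - 1) = ((t : ℝ) + 1) ^ δ / ((t : ℝ) + 1) :=
    (rpow_split (by positivity) δ).symm
  rw [e1] at h
  have hp1 : 0 < (t : ℝ) ^ δ := by positivity
  have hp2 : 0 < ((t : ℝ) + 1) ^ δ := by positivity
  have e2 : ((t : ℝ) + 1) ^ (-δ - 1) = (((t : ℝ) + 1) ^ δ)⁻¹ / ((t : ℝ) + 1) := by
    rw [← rpow_split (by positivity), Real.rpow_neg (by positivity)]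
  rw [e2, Real.rpow_neg htp.le, Real.rpow_neg (by positivity)]
  set a := (t : ℝ) ^ δ with ha
  set b := ((t : ℝ) + 1) ^ δ with hb
  set u := (t : ℝ) + 1 with hu
  have hup : 0 < u := by positivity
  have h3 : δ * (b⁻¹ / u) = δ / (b * u) := by field_simp
  have h4 : a⁻¹ - b⁻¹ = (b - a) / (a * b) := by field_simp
  rw [h3, h4, div_le_div_iff₀ (by positivity) (by positivity)]
  have h5 : δ * (b / u) ≤ b - a := by linarith
  have h6 : a ≤ b := by
    have : 0 ≤ δ * (b / u) := by positivity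
    linarith
  calc δ * (a * b) ≤ δ * (b * b) := by
        apply mul_le_mul_of_nonneg_left _ h0.le
        exact mul_le_mul_of_nonneg_right h6 hp2.le
    _ = δ * (b / u) * (b * u) := by field_simp
    _ ≤ (b - a) * (b * u) := by
        apply mul_le_mul_of_nonneg_right h5
        positivity

lemma diff_le {β : ℝ} (h0 : 0 < β) (h1 : β ≤ 1) {t : ℕ} (ht : 1 ≤ t) :
    (t : ℝ) ^ (-β) - ((t : ℝ) + 1) ^ (-β) ≤ β * (t : ℝ) ^ (-β - 1) := by
  have htp : (0 : ℝ) < t := by exact_mod_cast ht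
  have h := bern_up (β := β) h0.le h1 (m := (t : ℝ)) htp
  have e1 : (t : ℝ) ^ (β - 1) = (t : ℝ) ^ β / (t : ℝ) := (rpow_split htp β).symm
  rw [e1] at h
  have hp1 : 0 < (t : ℝ) ^ β := by positivity
  have hp2 : 0 < ((t : ℝ) + 1) ^ β := by positivity
  have e2 : (t : ℝ) ^ (-β - 1) = ((t : ℝ) ^ β)⁻¹ / (t : ℝ) := by
    rw [← rpow_split htp, Real.rpow_neg htp.le]
  rw [e2, Real.rpow_neg htp.le, Real.rpow_neg (by positivity)]
  set a := (t : ℝ) ^ β with ha
  set b := ((t : ℝ) + 1) ^ β with hb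
  set u := (t : ℝ) with hu
  have hab : a ≤ b := Real.rpow_le_rpow htp.le (by linarith) h0.le
  have h3 : β * (a⁻¹ / u) = β / (a * u) := by field_simp
  have h4 : a⁻¹ - b⁻¹ = (b - a) / (a * b) := by field_simp
  rw [h3, h4, div_le_div_iff₀ (by positivity) (by positivity)]
  have h5 : b - a ≤ β * (a / u) := by linarith
  calc (b - a) * (a * u) ≤ β * (a / u) * (a * u) := by
        apply mul_le_mul_of_nonneg_right h5
        positivity
    _ = β * (a * a) := by field_simp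
    _ ≤ β * (a * b) := by
        apply mul_le_mul_of_nonneg_left _ h0.le
        exact mul_le_mul_of_nonneg_left hab hp1.le

end Pool.Agent.R466.PD
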