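import Pool.Agent.R466.PD.Est

/-!
Deduction of the comparison theorem from `StmtB` and `StmtR`.
-/

namespace Pool.Agent.R466.PD

open Finset

/-- `S(f, A)`. -/
noncomputable def S (f : ℕ → ℝ) (A : Finset ℕ) : ℝ := ∑ a ∈ A, f a

/-- The weighted density `δ(f, A, n)`. -/
noncomputable def dens (f : ℕ → ℝ) (A : Finset ℕ) (n : ℕ) : ℝ := S f A / S f (Icc 1 n)

open Classical in
/-- `F(f, n)`: the largest weighted density of a primitive subset of `[n]`. -/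
noncomputable def F (f : ℕ → ℝ) (n : ℕ) : ℝ :=
  ((Icc 1 n).powerset.filter Prim).sup' ⟨∅, by simp [Prim]⟩ (fun A => dens f A n)

/-- The weighting `f_σ(m) = m^{-σ}`. -/
noncomputable def wt (σ : ℝ) (m : ℕ) : ℝ := (m : ℝ) ^ (-σ)

lemma F_exists (f : ℕ → ℝ) (n : ℕ) : ∃ A ⊆ Icc 1 n, Prim A ∧ F f n = dens f A n := by
  classical
  obtain ⟨A, hA, h⟩ := Finset.exists_mem_eq_sup' (s := (Icc 1 n).powerset.filter Prim)
    ⟨∅, by simp [Prim]⟩ (fun A => dens f A n)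
  rw [Finset.mem_filter, Finset.mem_powerset] at hA
  refine ⟨A, hA.1, hA.2, ?_⟩
  rw [← h]
  unfold F
  congr

lemma le_F (f : ℕ → ℝ) {n : ℕ} {A : Finset ℕ} (hA : A ⊆ Icc 1 n) (hP : Prim A) :
    dens f A n ≤ F f n := by
  classical
  have h := Finset.le_sup' (s := (Icc 1 n).powerset.filter Prim) (fun A => dens f A n)
    (b := A) (Finset.mem_filter.2 ⟨Finset.mem_powerset.2 hA, hP⟩)
  refine h.trans (le_of_eq ?_)
  unfold F
  congr

lemma dens_wt (σ : ℝ) (A : Finset ℕ) (n : ℕ) : dens (wt σ) A n = W σ A / SS σ n := rfl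

lemma F_ge {σ : ℝ} (h0 : 0 ≤ σ) (h1 : σ < 1) {n : ℕ} (hn : 1 ≤ n) :
    (1 - σ) / 2 ≤ F (wt σ) n := by
  have hβ : 0 < 1 - σ := by linarith
  set B := Ioc (n / 2) n with hBdef
  have hBs : B ⊆ Icc 1 n := by
    intro a ha
    rw [Finset.mem_Ioc] at ha
    rw [Finset.mem_Icc]
    omega
  have hBP : Prim B := by
    intro a ha b hb hab
    rw [Finset.mem_Ioc] at ha hb
    obtain ⟨c, rfl⟩ := hab
    rcases Nat.lt_or_ge c 2 with hc | hc
    · interval_cases c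
      · omega
      · omega
    · have h2 : a * 2 ≤ a * c := Nat.mul_le_mul_left a hc
      omega
  refine le_trans ?_ (le_F (wt σ) hBs hBP)
  rw [dens_wt, le_div_iff₀ (SS_pos σ hn)]
  have hnp : (0 : ℝ) < n := by exact_mod_cast hn
  have h2 : (n : ℝ) / 2 * (n : ℝ) ^ (-σ) ≤ W σ B := by
    have h3 : ∀ a ∈ B, (n : ℝ) ^ (-σ) ≤ (a : ℝ) ^ (-σ) := by
      intro a ha
      rw [Finset.mem_Ioc] at ha
      have hap : (0 : ℝ) < a := by
        have : 0 < a := by omega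
        exact_mod_cast this
      exact Real.rpow_le_rpow_of_nonpos hap (by exact_mod_cast ha.2) (by linarith)
    have h4 : (B.card : ℝ) * (n : ℝ) ^ (-σ) ≤ W σ B := by
      have := Finset.card_nsmul_le_sum B (fun a : ℕ => (a : ℝ) ^ (-σ)) _ h3
      rw [nsmul_eq_mul] at this
      exact this
    refine le_trans (mul_le_mul_of_nonneg_right ?_ (by positivity)) h4
    rw [hBdef, Nat.card_Ioc]
    have h5 : n ≤ 2 * (n - n / 2) := by omega
    have h6 : (n : ℝ) ≤ 2 * ((n - n / 2 : ℕ) : ℝ) := by exact_mod_cast h5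
    linarith
  have h3 := SS_le h0 h1 n
  have h4 : (n : ℝ) * (n : ℝ) ^ (-σ) = (n : ℝ) ^ (1 - σ) := by
    rw [show (1 - σ) = 1 + -σ by ring, Real.rpow_add hnp, Real.rpow_one]
  calc (1 - σ) / 2 * SS σ n ≤ (1 - σ) / 2 * ((n : ℝ) ^ (1 - σ) / (1 - σ)) :=
        mul_le_mul_of_nonneg_left h3 (by positivity)
    _ = (n : ℝ) ^ (1 - σ) / 2 := by field_simp
    _ = (n : ℝ) / 2 * (n : ℝ) ^ (-σ) := by rw [← h4]; ring
    _ ≤ W σ B := h2

/-- `e_t = t^{-β} - (t+1)^{-β}`. -/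
noncomputable abbrev ed (β : ℝ) (t : ℕ) : ℝ := (t : ℝ) ^ (-β) - ((t : ℝ) + 1) ^ (-β)

lemma ed_nonneg {β : ℝ} (h0 : 0 < β) (h1 : β ≤ 1) {t : ℕ} (ht : 1 ≤ t) : 0 ≤ ed β t :=
  le_trans (by positivity) (diff_ge h0 h1 ht)

lemma sum_inv_ge (x : ℕ) (k : ℕ) :
    Real.log (((x + k : ℕ) : ℝ) + 1) - Real.log ((x : ℝ) + 1) ≤
      ∑ t ∈ Ico x (x + k), 1 / ((t : ℝ) + 1) := by
  induction k with
  | zero => simp
  | succ k ih =>
    rw [← add_assoc, Finset.sum_Ico_succ_top (by omega)]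
    have hp : (0 : ℝ) < ((x + k : ℕ) : ℝ) + 1 := by positivity
    have h : Real.log (((x + k + 1 : ℕ) : ℝ) + 1) ≤
        Real.log (((x + k : ℕ) : ℝ) + 1) + 1 / (((x + k : ℕ) : ℝ) + 1) := by
      have e : (((x + k + 1 : ℕ) : ℝ) + 1) =
          (((x + k : ℕ) : ℝ) + 1) * (1 + 1 / (((x + k : ℕ) : ℝ) + 1)) := by
        push_cast
        field_simp
      rw [e, Real.log_mul hp.ne' (by positivity)]
      have := Real.log_le_sub_one_of_pos (x := 1 + 1 / (((x + k : ℕ) : ℝ) + 1)) (by positivity)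
      linarith
    linarith

lemma window_lower {σ : ℝ} (h0 : 0 ≤ σ) (h1 : σ < 1) {x n : ℕ} (hx : 1 ≤ x) (hxn : x ≤ n)
    (hx0 : (x : ℝ) ^ (-(1 - σ)) ≤ 1 / 2) :
    1 / 2 * (Real.log ((n : ℝ) / x) - Real.log 2) ≤
      ∑ t ∈ Ico x n, ed (1 - σ) t * SS σ t := by
  have hβ : 0 < 1 - σ := by linarith
  have hxp : (0 : ℝ) < x := by exact_mod_cast hx
  have hnp : (0 : ℝ) < n := by
    have : 0 < n := by omega
    exact_mod_cast this
  have h2 : ∀ t ∈ Ico x n, 1 / 2 * (1 / ((t : ℝ) + 1)) ≤ ed (1 - σ) t * SS σ t := by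
    intro t ht
    rw [Finset.mem_Ico] at ht
    have htx : (x : ℝ) ≤ t := by exact_mod_cast ht.1
    have htp : (0 : ℝ) < (t : ℝ) + 1 := by positivity
    have h3 := diff_ge hβ (by linarith) (t := t) (by omega)
    have h4 := SS_ge h0 h1 t
    have h5 : (0 : ℝ) ≤ (((t : ℝ) + 1) ^ (1 - σ) - 1) / (1 - σ) := by
      have : 1 ≤ ((t : ℝ) + 1) ^ (1 - σ) := Real.one_le_rpow (by linarith) hβ.le
      apply div_nonneg _ hβ.le
      linarith
    have h6 : ((t : ℝ) + 1) ^ (-(1 - σ)) ≤ 1 / 2 :=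
      le_trans (Real.rpow_le_rpow_of_nonpos hxp (by linarith) (by linarith)) hx0
    have h7 : ((t : ℝ) + 1) ^ (-(1 - σ) - 1) = ((t : ℝ) + 1) ^ (-(1 - σ)) / ((t : ℝ) + 1) :=
      (rpow_split htp _).symm
    have h8 : ((t : ℝ) + 1) ^ (-(1 - σ)) * ((t : ℝ) + 1) ^ (1 - σ) = 1 := by
      rw [← Real.rpow_add htp]
      simp
    calc 1 / 2 * (1 / ((t : ℝ) + 1)) ≤ (1 - ((t : ℝ) + 1) ^ (-(1 - σ))) * (1 / ((t : ℝ) + 1)) := by
          apply mul_le_mul_of_nonneg_right _ (by positivity)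
          linarith
      _ = (1 - σ) * ((t : ℝ) + 1) ^ (-(1 - σ) - 1) *
            ((((t : ℝ) + 1) ^ (1 - σ) - 1) / (1 - σ)) := by
          rw [h7]
          have : (1 - ((t : ℝ) + 1) ^ (-(1 - σ))) = ((t : ℝ) + 1) ^ (-(1 - σ)) *
              (((t : ℝ) + 1) ^ (1 - σ) - 1) := by
            rw [mul_sub, h8, mul_one]
          rw [this]
          field_simp
      _ ≤ ed (1 - σ) t * SS σ t := mul_le_mul h3 h4 h5 (ed_nonneg hβ (by linarith) (by omega))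
  refine le_trans ?_ (Finset.sum_le_sum h2)
  rw [← Finset.mul_sum]
  apply mul_le_mul_of_nonneg_left _ (by norm_num)
  obtain ⟨k, rfl⟩ := Nat.exists_eq_add_of_le hxn
  refine le_trans ?_ (sum_inv_ge x k)
  rw [← Real.log_div (by positivity) (by norm_num), ← Real.log_div (by positivity) (by positivity)]
  apply Real.log_le_log (by positivity)
  rw [div_div, div_le_div_iff₀ (by positivity) (by positivity)]
  have hx1 : (1 : ℝ) ≤ x := by exact_mod_cast hx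
  nlinarith

lemma window_upper {σ : ℝ} (h0 : 0 ≤ σ) (h1 : σ < 1) {x n : ℕ} (hx : 1 ≤ x) (hxn : x ≤ n)
    {A : Finset ℕ} (hA : A ⊆ Icc 1 n) :
    ∑ t ∈ Ico x n, ed (1 - σ) t * W σ (A.filter (· ≤ t)) ≤
      ∑ a ∈ A.filter (x ≤ ·), (1 : ℝ) / a + 1 / (1 - σ) := by
  have hβ : 0 < 1 - σ := by linarith
  have hxp : (0 : ℝ) < x := by exact_mod_cast hx
  set A' := A.filter (x ≤ ·) with hA'
  have hA's : A' ⊆ Icc 1 n := (Finset.filter_subset _ _).trans hA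
  have h2 := abel n A' hA's (fun a => (a : ℝ) ^ (-σ)) (fun a => (a : ℝ) ^ (-(1 - σ)))
  have h3 : ∑ a ∈ A', (a : ℝ) ^ (-σ) * (a : ℝ) ^ (-(1 - σ)) = ∑ a ∈ A', (1 : ℝ) / a := by
    refine Finset.sum_congr rfl fun a ha => ?_
    have hap : (0 : ℝ) < a := by
      have := Finset.mem_Icc.1 (hA's ha)
      exact_mod_cast this.1
    rw [← Real.rpow_add hap, show -σ + -(1 - σ) = -1 by ring, Real.rpow_neg_one, one_div]
  rw [h3] at h2
  have h4 : ∑ t ∈ Ico x n, ed (1 - σ) t * W σ (A'.filter (· ≤ t)) ≤ ∑ a ∈ A', (1 : ℝ) / a := by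
    rw [h2]
    have h5 : ∑ t ∈ Ico x n, ed (1 - σ) t * W σ (A'.filter (· ≤ t)) ≤
        ∑ t ∈ Ico 1 n, ed (1 - σ) t * W σ (A'.filter (· ≤ t)) := by
      apply Finset.sum_le_sum_of_subset_of_nonneg
      · intro t ht
        rw [Finset.mem_Ico] at ht ⊢
        omega
      · intro t ht _
        rw [Finset.mem_Ico] at ht
        exact mul_nonneg (ed_nonneg hβ (by linarith) ht.1) (W_nonneg _ _)
    have h6 : (0 : ℝ) ≤ (n : ℝ) ^ (-(1 - σ)) * ∑ a ∈ A', (a : ℝ) ^ (-σ) :=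
      mul_nonneg (by positivity) (W_nonneg σ A')
    refine le_trans h5 (le_trans (le_of_eq ?_) (le_add_of_nonneg_right h6))
    refine Finset.sum_congr rfl fun t _ => ?_
    simp only [ed, W]
    push_cast
    rfl
  have h7 : ∀ t ∈ Ico x n, ed (1 - σ) t * W σ (A.filter (· ≤ t)) ≤
      ed (1 - σ) t * W σ (A'.filter (· ≤ t)) + ed (1 - σ) t * SS σ x := by
    intro t ht
    rw [Finset.mem_Ico] at ht
    rw [← mul_add]
    apply mul_le_mul_of_nonneg_left _ (ed_nonneg hβ (by linarith) (by omega))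
    have h8 : A.filter (· ≤ t) ⊆ A'.filter (· ≤ t) ∪ Icc 1 x := by
      intro a ha
      rw [Finset.mem_filter] at ha
      have := Finset.mem_Icc.1 (hA ha.1)
      rw [Finset.mem_union, Finset.mem_filter, Finset.mem_filter, Finset.mem_Icc]
      by_cases hxa : x ≤ a
      · exact Or.inl ⟨⟨ha.1, hxa⟩, ha.2⟩
      · right; omega
    refine le_trans (W_mono σ h8) ?_
    have e : W σ (A'.filter (· ≤ t) ∪ Icc 1 x) + W σ (A'.filter (· ≤ t) ∩ Icc 1 x) =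
        W σ (A'.filter (· ≤ t)) + W σ (Icc 1 x) := Finset.sum_union_inter
    have h9 := W_nonneg σ (A'.filter (· ≤ t) ∩ Icc 1 x)
    change _ ≤ W σ (A'.filter (· ≤ t)) + W σ (Icc 1 x)
    linarith
  have h10 : ∑ t ∈ Ico x n, ed (1 - σ) t ≤ (x : ℝ) ^ (-(1 - σ)) := by
    have h11 := Finset.sum_Ico_sub (fun t : ℕ => (t : ℝ) ^ (-(1 - σ))) hxn
    have h12 : ∑ t ∈ Ico x n, ed (1 - σ) t =
        -∑ t ∈ Ico x n, (((t + 1 : ℕ) : ℝ) ^ (-(1 - σ)) - (t : ℝ) ^ (-(1 - σ))) := by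
      rw [← Finset.sum_neg_distrib]
      refine Finset.sum_congr rfl fun t _ => ?_
      simp only [ed]
      push_cast
      ring
    rw [h12, h11]
    have : (0 : ℝ) ≤ (n : ℝ) ^ (-(1 - σ)) := by positivity
    linarith
  calc ∑ t ∈ Ico x n, ed (1 - σ) t * W σ (A.filter (· ≤ t))
      ≤ ∑ t ∈ Ico x n, (ed (1 - σ) t * W σ (A'.filter (· ≤ t)) + ed (1 - σ) t * SS σ x) :=
        Finset.sum_le_sum h7
    _ = ∑ t ∈ Ico x n, ed (1 - σ) t * W σ (A'.filter (· ≤ t)) +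
          (∑ t ∈ Ico x n, ed (1 - σ) t) * SS σ x := by
        rw [Finset.sum_add_distrib, Finset.sum_mul]
    _ ≤ ∑ a ∈ A', (1 : ℝ) / a + (x : ℝ) ^ (-(1 - σ)) * ((x : ℝ) ^ (1 - σ) / (1 - σ)) := by
        apply add_le_add h4
        exact mul_le_mul h10 (SS_le h0 h1 x) (W_nonneg _ _) (by positivity)
    _ = ∑ a ∈ A', (1 : ℝ) / a + 1 / (1 - σ) := by
        rw [← mul_div_assoc, ← Real.rpow_add hxp]
        simp

end Pool.Agent.R466.PD
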