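import Pool.Agent.R466.PD.Main

/-!
Deduction of the comparison theorem from `StmtB` and `StmtR` (continued).
-/

namespace Pool.Agent.R466.PD

open Finset

lemma abelW {σ τ : ℝ} {n : ℕ} {A : Finset ℕ} (hA : A ⊆ Icc 1 n) :
    W τ A = ∑ t ∈ Ico 1 n, ed (τ - σ) t * W σ (A.filter (· ≤ t)) +
      (n : ℝ) ^ (-(τ - σ)) * W σ A := by
  have h2 := abel n A hA (fun a => (a : ℝ) ^ (-σ)) (fun a => (a : ℝ) ^ (-(τ - σ)))
  have h3 : ∑ a ∈ A, (a : ℝ) ^ (-σ) * (a : ℝ) ^ (-(τ - σ)) = W τ A := by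
    refine Finset.sum_congr rfl fun a ha => ?_
    have hap : (0 : ℝ) < a := by
      have := Finset.mem_Icc.1 (hA ha)
      exact_mod_cast this.1
    rw [← Real.rpow_add hap, show -σ + -(τ - σ) = -τ by ring]
  rw [h3] at h2
  rw [h2]
  congr 1
  refine Finset.sum_congr rfl fun t _ => ?_
  simp only [ed, W]
  push_cast
  rfl

lemma filter_Icc {n t : ℕ} (h : t ≤ n) : (Icc 1 n).filter (· ≤ t) = Icc 1 t := by
  ext a
  simp only [Finset.mem_filter, Finset.mem_Icc]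
  omega

lemma abelSS {σ τ : ℝ} (n : ℕ) :
    SS τ n = ∑ t ∈ Ico 1 n, ed (τ - σ) t * SS σ t + (n : ℝ) ^ (-(τ - σ)) * SS σ n := by
  have h := abelW (σ := σ) (τ := τ) (n := n) (A := Icc 1 n) (Finset.Subset.refl _)
  unfold SS
  rw [h]
  congr 1
  refine Finset.sum_congr rfl fun t ht => ?_
  rw [Finset.mem_Ico] at ht
  rw [filter_Icc ht.2.le]

lemma abelSS_le {σ τ : ℝ} (h1 : σ < τ) (z : ℕ) :
    ∑ t ∈ Ico 1 (z + 1), ed (τ - σ) t * SS σ t ≤ SS τ z := by
  rcases Nat.eq_zero_or_pos z with hz | hz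
  · subst hz
    simp [SS_zero]
  · rw [Finset.sum_Ico_succ_top hz, abelSS (σ := σ) (τ := τ) z]
    have : ed (τ - σ) z * SS σ z ≤ (z : ℝ) ^ (-(τ - σ)) * SS σ z := by
      apply mul_le_mul_of_nonneg_right _ (W_nonneg _ _)
      have : (0 : ℝ) ≤ ((z : ℝ) + 1) ^ (-(τ - σ)) := by positivity
      simp only [ed]
      linarith
    linarith

lemma ed_compare {σ τ : ℝ} (h0 : 0 ≤ σ) (h1 : σ < τ) (h2 : τ < 1) {x t : ℕ} (hx : 1 ≤ x)
    (hxt : x ≤ t) :
    (τ - σ) / (4 * (1 - σ)) * (x : ℝ) ^ (1 - τ) * ed (1 - σ) t ≤ ed (τ - σ) t := by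
  have hβ : 0 < 1 - σ := by linarith
  have hδ : 0 < τ - σ := by linarith
  have hτ : 0 < 1 - τ := by linarith
  have hxp : (0 : ℝ) < x := by exact_mod_cast hx
  have htp : (0 : ℝ) < t := by
    have : 0 < t := by omega
    exact_mod_cast this
  have hxt' : (x : ℝ) ≤ t := by exact_mod_cast hxt
  have ht1 : (1 : ℝ) ≤ t := by
    have : 1 ≤ t := by omega
    exact_mod_cast this
  have a1 := diff_ge hδ (by linarith) (t := t) (by omega)
  have a2 := diff_le hβ (by linarith) (t := t) (by omega)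
  have a3 : (1 / 4 : ℝ) * (t : ℝ) ^ (-(τ - σ) - 1) ≤ ((t : ℝ) + 1) ^ (-(τ - σ) - 1) := by
    have b1 : (2 * (t : ℝ)) ^ (-(τ - σ) - 1) ≤ ((t : ℝ) + 1) ^ (-(τ - σ) - 1) :=
      Real.rpow_le_rpow_of_nonpos (by positivity) (by linarith) (by linarith)
    refine le_trans ?_ b1
    rw [Real.mul_rpow (by norm_num) htp.le]
    apply mul_le_mul_of_nonneg_right _ (by positivity)
    have b2 : (2 : ℝ) ^ (-2 : ℝ) ≤ (2 : ℝ) ^ (-(τ - σ) - 1) :=
      Real.rpow_le_rpow_of_exponent_le (by norm_num) (by linarith)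
    refine le_trans (le_of_eq ?_) b2
    rw [Real.rpow_neg (by norm_num)]
    norm_num
  have a4 : (t : ℝ) ^ (-(τ - σ) - 1) = (t : ℝ) ^ (1 - τ) * (t : ℝ) ^ (-(1 - σ) - 1) := by
    rw [← Real.rpow_add htp]
    congr 1
    ring
  have a5 : (x : ℝ) ^ (1 - τ) ≤ (t : ℝ) ^ (1 - τ) := Real.rpow_le_rpow hxp.le hxt' hτ.le
  calc (τ - σ) / (4 * (1 - σ)) * (x : ℝ) ^ (1 - τ) * ed (1 - σ) t
      ≤ (τ - σ) / (4 * (1 - σ)) * (x : ℝ) ^ (1 - τ) * ((1 - σ) * (t : ℝ) ^ (-(1 - σ) - 1)) := by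
        apply mul_le_mul_of_nonneg_left a2
        positivity
    _ = (τ - σ) * (1 / 4 * ((x : ℝ) ^ (1 - τ) * (t : ℝ) ^ (-(1 - σ) - 1))) := by
        field_simp
    _ ≤ (τ - σ) * (1 / 4 * ((t : ℝ) ^ (1 - τ) * (t : ℝ) ^ (-(1 - σ) - 1))) := by
        apply mul_le_mul_of_nonneg_left _ hδ.le
        apply mul_le_mul_of_nonneg_left _ (by norm_num)
        exact mul_le_mul_of_nonneg_right a5 (by positivity)
    _ ≤ (τ - σ) * ((t : ℝ) + 1) ^ (-(τ - σ) - 1) := by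
        apply mul_le_mul_of_nonneg_left _ hδ.le
        rw [← a4]
        exact a3
    _ ≤ ed (τ - σ) t := a1

lemma exists_nat_log (R : ℝ) : ∃ K : ℕ, 1 ≤ K ∧ R ≤ Real.log K := by
  obtain ⟨K, hK⟩ := exists_nat_gt (Real.exp R)
  have hKp : (0 : ℝ) < K := lt_trans (Real.exp_pos R) hK
  refine ⟨K, by exact_mod_cast hKp, ?_⟩
  rw [Real.le_log_iff_exp_le hKp]
  exact hK.le

lemma exists_nat_rpow {b : ℝ} (hb : 0 < b) {c : ℝ} (hc : 0 < c) (m : ℕ) :
    ∃ K : ℕ, m ≤ K ∧ 1 ≤ K ∧ (K : ℝ) ^ (-b) ≤ c := by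
  obtain ⟨K, hK⟩ := exists_nat_gt (max (m : ℝ) ((1 / c) ^ (1 / b)))
  have hK1 : (m : ℝ) < K := lt_of_le_of_lt (le_max_left _ _) hK
  have hK2 : (1 / c) ^ (1 / b) < K := lt_of_le_of_lt (le_max_right _ _) hK
  have hKp : (0 : ℝ) < K := lt_of_le_of_lt (by positivity) hK2
  refine ⟨K, by exact_mod_cast hK1.le, by exact_mod_cast hKp, ?_⟩
  have h1 : ((1 / c) ^ (1 / b)) ^ b ≤ (K : ℝ) ^ b := Real.rpow_le_rpow (by positivity) hK2.le hb.le
  rw [← Real.rpow_mul (by positivity), one_div_mul_cancel hb.ne', Real.rpow_one] at h1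
  rw [Real.rpow_neg hKp.le, inv_le_comm₀ (by positivity) hc]
  rwa [one_div] at h1

theorem case_lt (hB : StmtB) (hR : StmtR) {σ τ : ℝ} (h0 : 0 ≤ σ) (h1 : σ < τ) (h2 : τ < 1) :
    ∃ n₀ : ℕ, ∀ n : ℕ, n₀ < n → F (wt τ) n < F (wt σ) n := by
  have hβ : 0 < 1 - σ := by linarith
  have hδ : 0 < τ - σ := by linarith
  have hτ : 0 < 1 - τ := by linarith
  set β := 1 - σ with hβdef
  set δ := τ - σ with hδdef
  set γ := 1 - τ with hγdef
  set c0 := β / 2 with hc0
  have hc0p : 0 < c0 := by positivity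
  obtain ⟨C, hC⟩ := hB (c0 / 4) (by positivity)
  obtain ⟨K, hK1, hK⟩ := exists_nat_log ((1 + c0 / 2 * Real.log 2 + C + 1 / β) / (c0 / 4))
  rw [div_le_iff₀ (by positivity)] at hK
  obtain ⟨x0, -, hx01, hx0⟩ := exists_nat_rpow hβ (c := 1 / 2) (by norm_num) 1
  have hKp : (0 : ℝ) < K := by exact_mod_cast hK1
  set κ := δ / (4 * β) * (2 * (K : ℝ)) ^ (-γ) with hκ
  have hκp : 0 < κ := by positivity
  obtain ⟨K', hKK', hK'1, hK'⟩ := exists_nat_rpow hτ (c := κ * γ / 2) (by positivity) (2 * K)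
  have hK'p : (0 : ℝ) < K' := by exact_mod_cast hK'1
  obtain ⟨n1, hn1⟩ := hR σ h0 (by linarith) (κ * γ / 4) (by positivity) K' hK'1
  refine ⟨max n1 (K * (x0 + 1)), fun n hn => ?_⟩
  have hnn1 : n1 ≤ n := le_of_lt (lt_of_le_of_lt (le_max_left _ _) hn)
  have hnK : K * (x0 + 1) ≤ n := le_of_lt (lt_of_le_of_lt (le_max_right _ _) hn)
  have hn1' : 1 ≤ n := by
    have : 1 ≤ K * (x0 + 1) := Nat.mul_pos hK1 (by omega)
    omega
  have hnp : (0 : ℝ) < n := by exact_mod_cast hn1'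
  set x := n / K with hx
  have hxx0 : x0 + 1 ≤ x := (Nat.le_div_iff_mul_le hK1).2 (by rw [mul_comm]; exact hnK)
  have hx1 : 1 ≤ x := by omega
  have hxp : (0 : ℝ) < x := by exact_mod_cast hx1
  have hKx : K * x ≤ n := Nat.mul_div_le n K
  have hnx : n < K * (x + 1) := by
    rw [hx]
    exact Nat.lt_mul_div_succ n hK1
  have hxn : x ≤ n := Nat.div_le_self n K
  obtain ⟨A, hA, hAP, hFA⟩ := F_exists (wt τ) n
  rw [hFA, dens_wt, div_lt_iff₀ (SS_pos τ hn1')]
  set G := F (wt σ) n + κ * γ / 4 with hG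
  have hFc : c0 ≤ F (wt σ) n := F_ge h0 (by linarith) hn1'
  have hGc : c0 ≤ G := by
    have : 0 < κ * γ / 4 := by positivity
    linarith
  have hPf : ∀ t : ℕ, Prim (A.filter (· ≤ t)) := fun t a ha b hb hab =>
    hAP a (Finset.mem_filter.1 ha).1 b (Finset.mem_filter.1 hb).1 hab
  have hsub : ∀ t : ℕ, A.filter (· ≤ t) ⊆ Icc 1 t := by
    intro t a ha
    rw [Finset.mem_filter] at ha
    have := Finset.mem_Icc.1 (hA ha.1)
    rw [Finset.mem_Icc]
    omega
  have hM : ∀ t : ℕ, 1 ≤ t → t ≤ n → n ≤ K' * t → W σ (A.filter (· ≤ t)) ≤ G * SS σ t := by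
    intro t ht1 htn hnt
    obtain ⟨B, hB1, hB2, hB3⟩ := hn1 n t hnn1 htn hnt _ (hsub t) (hPf t)
    have h3 := le_F (wt σ) hB1 hB2
    rw [dens_wt] at h3
    have h4 : W σ (A.filter (· ≤ t)) / SS σ t ≤ G := by
      refine le_trans hB3 ?_
      rw [hG]
      linarith
    rwa [div_le_iff₀ (SS_pos σ ht1)] at h4
  have hMn : W σ A ≤ G * SS σ n := by
    have h3 := hM n hn1' le_rfl (Nat.le_mul_of_pos_left n hK'1)
    rwa [Finset.filter_true_of_mem (fun a ha => (Finset.mem_Icc.1 (hA ha)).2)] at h3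
  have hWS : ∀ t : ℕ, W σ (A.filter (· ≤ t)) ≤ SS σ t := fun t => W_mono σ (hsub t)
  -- the window
  have hwin : 1 ≤ ∑ t ∈ Ico x n, ed β t * (G * SS σ t - W σ (A.filter (· ≤ t))) := by
    have e1 : ∑ t ∈ Ico x n, ed β t * (G * SS σ t - W σ (A.filter (· ≤ t))) =
        G * ∑ t ∈ Ico x n, ed β t * SS σ t -
          ∑ t ∈ Ico x n, ed β t * W σ (A.filter (· ≤ t)) := by
      rw [Finset.mul_sum, ← Finset.sum_sub_distrib]
      exact Finset.sum_congr rfl fun t _ => by ring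
    have e2 := window_lower h0 (by linarith) hx1 hxn (le_trans
      (Real.rpow_le_rpow_of_nonpos (by exact_mod_cast hx01) (by exact_mod_cast (by omega : x0 ≤ x))
        (by linarith)) hx0)
    have e3 := window_upper h0 (by linarith : σ < 1) hx1 hxn hA
    have e4 := hC x n hx1 hxn (A.filter (x ≤ ·)) (by
      intro a ha
      rw [Finset.mem_filter] at ha
      have := Finset.mem_Icc.1 (hA ha.1)
      rw [Finset.mem_Icc]
      omega) (fun a ha b hb hab =>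
        hAP a (Finset.mem_filter.1 ha).1 b (Finset.mem_filter.1 hb).1 hab)
    have e5 : 0 ≤ ∑ t ∈ Ico x n, ed β t * SS σ t := by
      refine Finset.sum_nonneg fun t ht => ?_
      rw [Finset.mem_Ico] at ht
      exact mul_nonneg (ed_nonneg hβ (by linarith) (by omega)) (W_nonneg _ _)
    have e6 : c0 * ∑ t ∈ Ico x n, ed β t * SS σ t ≤ G * ∑ t ∈ Ico x n, ed β t * SS σ t :=
      mul_le_mul_of_nonneg_right hGc e5
    have e7 : Real.log K ≤ Real.log ((n : ℝ) / x) := by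
      apply Real.log_le_log hKp
      rw [le_div_iff₀ hxp]
      exact_mod_cast hKx
    rw [e1]
    have e8 : c0 * (1 / 2 * (Real.log ((n : ℝ) / x) - Real.log 2)) ≤
        c0 * ∑ t ∈ Ico x n, ed β t * SS σ t := mul_le_mul_of_nonneg_left e2 hc0p.le
    have e9 : c0 / 4 * Real.log K ≤ c0 / 4 * Real.log ((n : ℝ) / x) :=
      mul_le_mul_of_nonneg_left e7 (by positivity)
    linarith
  -- total
  have hdiff : G * SS τ n - W τ A = ∑ t ∈ Ico 1 n, ed δ t * (G * SS σ t - W σ (A.filter (· ≤ t)))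
      + (n : ℝ) ^ (-δ) * (G * SS σ n - W σ A) := by
    have e1 := abelSS (σ := σ) (τ := τ) n
    have e2 := abelW (σ := σ) (τ := τ) hA
    rw [e1, e2, mul_add, Finset.mul_sum]
    have e3 : ∑ t ∈ Ico 1 n, ed δ t * (G * SS σ t - W σ (A.filter (· ≤ t))) =
        ∑ t ∈ Ico 1 n, G * (ed (τ - σ) t * SS σ t) -
          ∑ t ∈ Ico 1 n, ed (τ - σ) t * W σ (A.filter (· ≤ t)) := by
      rw [← Finset.sum_sub_distrib]
      exact Finset.sum_congr rfl fun t _ => by ring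
    rw [e3]
    ring
  have hs1 : δ / (4 * β) * (x : ℝ) ^ γ ≤
      ∑ t ∈ Ico x n, ed δ t * (G * SS σ t - W σ (A.filter (· ≤ t))) := by
    have e1 : δ / (4 * β) * (x : ℝ) ^ γ * 1 ≤ δ / (4 * β) * (x : ℝ) ^ γ *
        ∑ t ∈ Ico x n, ed β t * (G * SS σ t - W σ (A.filter (· ≤ t))) :=
      mul_le_mul_of_nonneg_left hwin (by positivity)
    rw [mul_one] at e1
    refine le_trans e1 ?_
    rw [Finset.mul_sum]
    refine Finset.sum_le_sum fun t ht => ?_
    rw [Finset.mem_Ico] at ht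
    rw [← mul_assoc]
    apply mul_le_mul_of_nonneg_right (ed_compare h0 h1 h2 hx1 ht.1)
    have hnt : n ≤ K' * t := by
      have e2 : K * (x + 1) ≤ K * (2 * x) := Nat.mul_le_mul_left K (by omega)
      have e3 : 2 * K * x ≤ K' * t := Nat.mul_le_mul hKK' ht.1
      have e4 : K * (2 * x) = 2 * K * x := by ring
      omega
    have := hM t (by omega) ht.2.le hnt
    linarith
  have hs2 : -SS τ (n / K') ≤
      ∑ t ∈ Ico 1 x, ed δ t * (G * SS σ t - W σ (A.filter (· ≤ t))) := by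
    have e1 : ∀ t ∈ Ico 1 x, -(if t ≤ n / K' then ed δ t * SS σ t else 0) ≤
        ed δ t * (G * SS σ t - W σ (A.filter (· ≤ t))) := by
      intro t ht
      rw [Finset.mem_Ico] at ht
      have e2 := ed_nonneg hδ (by linarith) ht.1
      have e3 : 0 ≤ SS σ t := W_nonneg _ _
      split_ifs with h
      · have e4 : -SS σ t ≤ G * SS σ t - W σ (A.filter (· ≤ t)) := by
          have := hWS t
          have : 0 ≤ G * SS σ t := mul_nonneg (by linarith) e3
          linarith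
        calc -(ed δ t * SS σ t) = ed δ t * -SS σ t := by ring
          _ ≤ _ := mul_le_mul_of_nonneg_left e4 e2
      · rw [neg_zero]
        apply mul_nonneg e2
        have hnt : n ≤ K' * t := by
          rw [not_le, Nat.div_lt_iff_lt_mul hK'1] at h
          rw [mul_comm]
          omega
        have := hM t ht.1 (by omega) hnt
        linarith
    refine le_trans ?_ (Finset.sum_le_sum e1)
    rw [Finset.sum_neg_distrib, neg_le_neg_iff, ← Finset.sum_filter]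
    refine le_trans ?_ (abelSS_le h1 (n / K'))
    apply Finset.sum_le_sum_of_subset_of_nonneg
    · intro t ht
      rw [Finset.mem_filter, Finset.mem_Ico] at ht
      rw [Finset.mem_Ico]
      omega
    · intro t ht _
      rw [Finset.mem_Ico] at ht
      exact mul_nonneg (ed_nonneg hδ (by linarith) ht.1) (W_nonneg _ _)
  have hs3 : 0 ≤ (n : ℝ) ^ (-δ) * (G * SS σ n - W σ A) := mul_nonneg (by positivity) (by linarith)
  have hsplit := Finset.sum_Ico_consecutive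
    (fun t => ed δ t * (G * SS σ t - W σ (A.filter (· ≤ t)))) hx1 hxn
  have hxγ : (n : ℝ) ^ γ * (2 * (K : ℝ)) ^ (-γ) ≤ (x : ℝ) ^ γ := by
    have e1 : (n : ℝ) / (2 * K) ≤ x := by
      rw [div_le_iff₀ (by positivity)]
      have e2 : n ≤ x * (2 * K) := by
        have e2 : K * (x + 1) ≤ K * (2 * x) := Nat.mul_le_mul_left K (by omega)
        have e4 : K * (2 * x) = x * (2 * K) := by ring
        omega
      exact_mod_cast e2
    have e2 := Real.rpow_le_rpow (by positivity) e1 hτ.le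
    rw [Real.div_rpow hnp.le (by positivity)] at e2
    rw [Real.rpow_neg (by positivity), ← div_eq_mul_inv]
    exact e2
  have hzγ : SS τ (n / K') ≤ (n : ℝ) ^ γ * (κ / 2) := by
    have e1 := SS_le (σ := τ) (by linarith) h2 (n / K')
    have e2 : ((n / K' : ℕ) : ℝ) ≤ (n : ℝ) / K' := Nat.cast_div_le
    have e3 := Real.rpow_le_rpow (by positivity) e2 hτ.le
    rw [Real.div_rpow hnp.le hK'p.le] at e3
    refine le_trans e1 ?_
    rw [div_le_iff₀ hτ]
    refine le_trans e3 ?_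
    rw [div_eq_mul_inv, ← Real.rpow_neg hK'p.le]
    calc (n : ℝ) ^ γ * (K' : ℝ) ^ (-γ) ≤ (n : ℝ) ^ γ * (κ * γ / 2) :=
          mul_le_mul_of_nonneg_left hK' (by positivity)
      _ = (n : ℝ) ^ γ * (κ / 2) * γ := by ring
  have hSτ : SS τ n * γ ≤ (n : ℝ) ^ γ := by
    have e1 := SS_le (σ := τ) (by linarith) h2 n
    rwa [le_div_iff₀ hτ] at e1
  have hfin : (n : ℝ) ^ γ * (κ / 2) ≤ G * SS τ n - W τ A := by
    rw [hdiff, ← hsplit]
    have e1 : δ / (4 * β) * ((n : ℝ) ^ γ * (2 * (K : ℝ)) ^ (-γ)) ≤ δ / (4 * β) * (x : ℝ) ^ γ :=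
      mul_le_mul_of_nonneg_left hxγ (by positivity)
    have e2 : δ / (4 * β) * ((n : ℝ) ^ γ * (2 * (K : ℝ)) ^ (-γ)) = (n : ℝ) ^ γ * κ := by
      rw [hκ]; ring
    linarith
  have hfin2 : SS τ n * γ * (κ / 2) ≤ (n : ℝ) ^ γ * (κ / 2) :=
    mul_le_mul_of_nonneg_right hSτ (by positivity)
  have hpos : 0 < SS τ n * γ * κ := by
    have := SS_pos τ hn1'
    positivity
  rw [hG] at hfin
  nlinarith

theorem case_one (hB : StmtB) {σ : ℝ} (h0 : 0 ≤ σ) (h1 : σ < 1) :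
    ∃ n₀ : ℕ, ∀ n : ℕ, n₀ < n → F (wt 1) n < F (wt σ) n := by
  have hβ : 0 < 1 - σ := by linarith
  obtain ⟨C, hC⟩ := hB ((1 - σ) / 8) (by positivity)
  obtain ⟨K, hK1, hK⟩ := exists_nat_log ((|C| + 1) / ((1 - σ) / 8))
  rw [div_le_iff₀ (by positivity)] at hK
  refine ⟨K, fun n hn => ?_⟩
  have hn1 : 1 ≤ n := by omega
  obtain ⟨A, hA, hAP, hFA⟩ := F_exists (wt 1) n
  refine lt_of_lt_of_le ?_ (F_ge h0 h1 hn1)
  rw [hFA, dens_wt, div_lt_iff₀ (SS_pos 1 hn1)]
  have h2 := hC 1 n le_rfl hn1 A hA hAP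
  have h3 : W 1 A = ∑ a ∈ A, (1 : ℝ) / a := by
    refine Finset.sum_congr rfl fun a _ => ?_
    rw [Real.rpow_neg_one, one_div]
  have h4 : Real.log ((n : ℝ) + 1) ≤ SS 1 n := by
    have h5 := sum_inv_ge 0 n
    have h6 : SS 1 n = ∑ t ∈ Ico 0 (0 + n), 1 / ((t : ℝ) + 1) := by
      unfold SS W
      rw [zero_add]
      have e : Icc 1 n = (Ico 0 n).image (· + 1) := by
        ext a
        simp only [Finset.mem_Icc, Finset.mem_image, Finset.mem_Ico]
        constructor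
        · intro h
          exact ⟨a - 1, by omega, by omega⟩
        · rintro ⟨b, hb, rfl⟩
          omega
      rw [e, Finset.sum_image (fun a _ b _ h => by simpa using h)]
      refine Finset.sum_congr rfl fun a _ => ?_
      rw [Real.rpow_neg_one, one_div]
      push_cast
      rfl
    rw [h6]
    simpa using h5
  have hlog : Real.log K ≤ Real.log n := by
    apply Real.log_le_log (by exact_mod_cast hK1)
    exact_mod_cast hn.le
  have hlog2 : Real.log n ≤ Real.log ((n : ℝ) + 1) := by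
    apply Real.log_le_log (by exact_mod_cast hn1)
    linarith
  have hCabs := le_abs_self C
  have h5 : W 1 A ≤ (1 - σ) / 8 * Real.log n + C := by
    rw [h3]
    simpa using h2
  have hlogK : (1 - σ) / 8 * Real.log K ≤ (1 - σ) / 8 * Real.log n :=
    mul_le_mul_of_nonneg_left hlog (by positivity)
  have h7 : (1 - σ) / 2 * Real.log n ≤ (1 - σ) / 2 * SS 1 n :=
    mul_le_mul_of_nonneg_left (hlog2.trans h4) (by positivity)
  nlinarith [abs_nonneg C]

theorem main (hB : StmtB) (hR : StmtR) : ∀ σ τ : ℝ, 0 ≤ σ → σ < τ → τ ≤ 1 →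
    ∃ n₀ : ℕ, ∀ n : ℕ, n₀ < n → F (wt τ) n < F (wt σ) n := by
  intro σ τ h0 h1 h2
  rcases h2.lt_or_eq with h | h
  · exact case_lt hB hR h0 h1 h
  · subst h
    exact case_one hB h0 h1

end Pool.Agent.R466.PD
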