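import Pool.Agent.R466.PD.Defs

/-!
# Scaling lemma for primitive sets (MP_def192_nt)

`stmtR : StmtR`: a primitive subset of `[t]` can be scaled up to a primitive subset of `[n]` of almost
the same density.
-/

set_option autoImplicit false

namespace Pool.Agent.R466.PD

open Finset

/-! ### Smooth and rough parts -/

/-- all primes dividing `s` divide `D` -/
def Sm (D s : ℕ) : Prop := ∃ k, s ∣ D ^ k

theorem Sm.pos {D s : ℕ} (hD : 0 < D) (h : Sm D s) : 0 < s := by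
  obtain ⟨k, hk⟩ := h
  exact Nat.pos_of_dvd_of_pos hk (pow_pos hD k)

theorem Sm.coprime {D s v : ℕ} (h : Sm D s) (hv : Nat.Coprime v D) : Nat.Coprime v s := by
  obtain ⟨k, hk⟩ := h
  exact Nat.Coprime.coprime_dvd_right hk (Nat.Coprime.pow_right k hv)

theorem decomp (D : ℕ) : ∀ m : ℕ, 1 ≤ m → ∃ s u : ℕ, m = s * u ∧ Sm D s ∧ Nat.Coprime u D := by
  intro m
  induction m using Nat.strong_induction_on with
  | _ m ih =>
    intro hm
    by_cases h : Nat.Coprime m D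
    · exact ⟨1, m, (one_mul m).symm, ⟨0, one_dvd _⟩, h⟩
    · obtain ⟨m', hm'⟩ := Nat.gcd_dvd_left m D
      have hg : Nat.gcd m D ≠ 1 := h
      have hg0 : 0 < Nat.gcd m D := Nat.gcd_pos_of_pos_left _ hm
      have hm0 : 1 ≤ m' := by
        rcases Nat.eq_zero_or_pos m' with h0 | h0
        · rw [h0, mul_zero] at hm'; omega
        · exact h0
      have hlt : m' < m := by
        have : 2 ≤ Nat.gcd m D := by omega
        nlinarith
      obtain ⟨s, u, h1, ⟨k, hk⟩, h3⟩ := ih m' hlt hm0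
      refine ⟨Nat.gcd m D * s, u, ?_, ⟨k + 1, ?_⟩, h3⟩
      · rw [mul_assoc, ← h1]; exact hm'
      · rw [pow_succ', mul_comm (Nat.gcd m D)]
        rw [mul_comm D]
        exact Nat.mul_dvd_mul hk (Nat.gcd_dvd_right m D)

theorem Sm.unique {D s s' v v' : ℕ} (hs : Sm D s) (hs' : Sm D s')
    (hv : Nat.Coprime v D) (hv' : Nat.Coprime v' D) (h : s * v = s' * v') : s = s' ∧ v = v' := by
  have h1 : v ∣ v' := (hs'.coprime hv).dvd_of_dvd_mul_left (h ▸ dvd_mul_left v s)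
  have h2 : v' ∣ v := (hs.coprime hv').dvd_of_dvd_mul_left (h ▸ dvd_mul_left v' s')
  have h3 : v = v' := Nat.dvd_antisymm h1 h2
  subst h3
  refine ⟨?_, rfl⟩
  rcases Nat.eq_zero_or_pos v with h0 | h0
  · subst h0
    -- then `D = 1`
    have hD1 : D = 1 := by simpa using hv
    obtain ⟨k, hk⟩ := hs
    obtain ⟨k', hk'⟩ := hs'
    rw [hD1, one_pow, Nat.dvd_one] at hk hk'
    rw [hk, hk']
  · exact Nat.eq_of_mul_eq_mul_right h0 h

theorem card_coprime_Ico (D H n : ℕ) :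
    ((Ico n (n + D * H)).filter (fun v => Nat.Coprime v D)).card = D.totient * H := by
  induction H with
  | zero => simp
  | succ H ih =>
    have h1 : Ico n (n + D * (H + 1)) = Ico n (n + D * H) ∪ Ico (n + D * H) (n + D * H + D) := by
      rw [Ico_union_Ico_eq_Ico (by omega) (by omega)]
      congr 1
      ring
    have h2 : Disjoint ((Ico n (n + D * H)).filter (fun v => Nat.Coprime v D))
        ((Ico (n + D * H) (n + D * H + D)).filter (fun v => Nat.Coprime v D)) := by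
      rw [Finset.disjoint_left]
      intro a ha hb
      rw [mem_filter, mem_Ico] at ha hb
      omega
    have h3 := Nat.filter_coprime_Ico_eq_totient D (n + D * H)
    have h4 : (Ico (n + D * H) (n + D * H + D)).filter (fun v => Nat.Coprime v D) =
        (Ico (n + D * H) (n + D * H + D)).filter (fun v => Nat.Coprime D v) := by
      apply filter_congr
      intro v _
      exact Nat.coprime_comm
    rw [h1, filter_union, card_union_of_disjoint h2, ih, h4, h3]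
    ring

/-! ### The sum of powers -/

theorem W_nonneg (σ : ℝ) (A : Finset ℕ) : 0 ≤ W σ A :=
  sum_nonneg fun a _ => Real.rpow_nonneg (Nat.cast_nonneg a) _

theorem W_mono (σ : ℝ) {A B : Finset ℕ} (h : A ⊆ B) : W σ A ≤ W σ B :=
  sum_le_sum_of_subset_of_nonneg h fun a _ _ => Real.rpow_nonneg (Nat.cast_nonneg a) _

theorem W_Icc_succ (σ : ℝ) (m : ℕ) :
    W σ (Icc 1 (m + 1)) = W σ (Icc 1 m) + ((m + 1 : ℕ) : ℝ) ^ (-σ) := by
  unfold W
  rw [← Finset.insert_Icc_right_eq_Icc_add_one (by omega), sum_insert (by simp), add_comm]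

theorem rpow_step_up {β : ℝ} (h0 : 0 < β) (h1 : β ≤ 1) (k : ℝ) (hk : 1 ≤ k) :
    (k + 1) ^ β ≤ k ^ β + β * k ^ (β - 1) := by
  have hk0 : 0 < k := by linarith
  have h2 : (k + 1) ^ β = k ^ β * (1 + 1 / k) ^ β := by
    rw [← Real.mul_rpow hk0.le (by positivity)]
    congr 1
    field_simp
  have h3 : (1 + 1 / k) ^ β ≤ 1 + β * (1 / k) := by
    apply rpow_one_add_le_one_add_mul_self _ h0.le h1
    have : 0 ≤ 1 / k := by positivity
    linarith
  rw [h2, Real.rpow_sub_one hk0.ne']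
  have h4 : 0 ≤ k ^ β := Real.rpow_nonneg hk0.le _
  calc k ^ β * (1 + 1 / k) ^ β ≤ k ^ β * (1 + β * (1 / k)) := mul_le_mul_of_nonneg_left h3 h4
    _ = k ^ β + β * (k ^ β / k) := by ring

theorem rpow_step_down {β : ℝ} (h0 : 0 < β) (h1 : β ≤ 1) (k : ℝ) (hk : 0 ≤ k) :
    k ^ β + β * (k + 1) ^ (β - 1) ≤ (k + 1) ^ β := by
  have hk0 : 0 < k + 1 := by linarith
  have h2 : k ^ β = (k + 1) ^ β * (1 + (-(1 / (k + 1)))) ^ β := by
    have h5 : 1 + (-(1 / (k + 1))) = k / (k + 1) := by field_simp; ring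
    rw [h5, ← Real.mul_rpow hk0.le (by positivity)]
    congr 1
    field_simp
  have h3 : (1 + (-(1 / (k + 1)))) ^ β ≤ 1 + β * (-(1 / (k + 1))) := by
    apply rpow_one_add_le_one_add_mul_self _ h0.le h1
    have : 1 / (k + 1) ≤ 1 := by
      rw [div_le_one hk0]; linarith
    linarith
  rw [h2, Real.rpow_sub_one hk0.ne']
  have h4 : 0 ≤ (k + 1) ^ β := Real.rpow_nonneg hk0.le _
  have h5 := mul_le_mul_of_nonneg_left h3 h4
  have h6 : (k + 1) ^ β * (1 + β * (-(1 / (k + 1)))) + β * ((k + 1) ^ β / (k + 1)) =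
      (k + 1) ^ β := by ring
  linarith

theorem W_le {σ : ℝ} (h0 : 0 ≤ σ) (h1 : σ < 1) (m : ℕ) :
    (1 - σ) * W σ (Icc 1 m) ≤ (m : ℝ) ^ (1 - σ) := by
  induction m with
  | zero => simp [W, Real.rpow_nonneg]
  | succ m ih =>
    rw [W_Icc_succ]
    have h2 := rpow_step_down (β := 1 - σ) (by linarith) (by linarith) (m : ℝ) (Nat.cast_nonneg m)
    rw [show 1 - σ - 1 = -σ by ring] at h2
    push_cast
    linarith

theorem le_W {σ : ℝ} (h0 : 0 ≤ σ) (h1 : σ < 1) (m : ℕ) :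
    (m : ℝ) ^ (1 - σ) - 1 ≤ (1 - σ) * W σ (Icc 1 m) := by
  have key : ((m : ℝ) + 1) ^ (1 - σ) - 1 ≤ (1 - σ) * W σ (Icc 1 m) := by
    induction m with
    | zero => simp [W]
    | succ m ih =>
      rw [W_Icc_succ]
      have h2 := rpow_step_up (β := 1 - σ) (by linarith) (by linarith) ((m : ℝ) + 1)
        (by have : (0 : ℝ) ≤ m := Nat.cast_nonneg m
            linarith)
      rw [show 1 - σ - 1 = -σ by ring] at h2
      push_cast
      linarith
  have h3 : (m : ℝ) ^ (1 - σ) ≤ ((m : ℝ) + 1) ^ (1 - σ) :=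
    Real.rpow_le_rpow (Nat.cast_nonneg m) (by linarith) (by linarith)
  linarith

theorem le_W' {σ : ℝ} (h0 : 0 ≤ σ) (m : ℕ) (hm : 1 ≤ m) :
    (m : ℝ) ^ (1 - σ) ≤ W σ (Icc 1 m) := by
  have hm0 : (0 : ℝ) < m := by exact_mod_cast hm
  have h1 : ∀ a ∈ Icc 1 m, (m : ℝ) ^ (-σ) ≤ (a : ℝ) ^ (-σ) := by
    intro a ha
    rw [mem_Icc] at ha
    have ha0 : (0 : ℝ) < a := by exact_mod_cast ha.1
    have ham : (a : ℝ) ≤ m := by exact_mod_cast ha.2
    exact Real.rpow_le_rpow_of_nonpos ha0 ham (by linarith)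
  have h2 := Finset.card_nsmul_le_sum (Icc 1 m) (fun a => (a : ℝ) ^ (-σ)) _ h1
  rw [Nat.card_Icc, nsmul_eq_mul, Nat.add_sub_cancel] at h2
  unfold W
  refine le_trans (le_of_eq ?_) h2
  rw [Real.rpow_sub hm0, Real.rpow_one, Real.rpow_neg hm0.le]
  rfl

/-! ### The construction -/

section core

variable {σ : ℝ} {K1 H D H' n t : ℕ} {A : Finset ℕ} {sp rp : ℕ → ℕ}

/-- the size of the new elements, upper bound -/
theorem size_up (hH : 0 < H) (hH' : H' * t ≤ n * H) {s u v j : ℕ}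
    (hu : (j + 1) * (D * H) ≤ u) (hv : v < (j + 1) * (D * H')) (hsu : s * u ≤ t) : s * v ≤ n := by
  have h1 : s * ((j + 1) * (D * H)) ≤ t := le_trans (Nat.mul_le_mul_left s hu) hsu
  have h2 : s * v ≤ s * ((j + 1) * (D * H')) := Nat.mul_le_mul_left s hv.le
  have h3 : s * ((j + 1) * (D * H)) * H' ≤ t * H' := Nat.mul_le_mul_right H' h1
  have h4 : s * ((j + 1) * (D * H')) * H ≤ n * H := by
    calc s * ((j + 1) * (D * H')) * H = s * ((j + 1) * (D * H)) * H' := by ring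
      _ ≤ t * H' := h3
      _ = H' * t := by ring
      _ ≤ n * H := hH'
  exact le_trans h2 (Nat.le_of_mul_le_mul_right h4 hH)

/-- the size of the new elements, lower bound -/
theorem size_low (hH'2 : 2 ≤ H') (hn : n * H < (H' + 1) * t)
    {s u v j : ℕ} (hj : 2 ≤ j) (hu : u < (j + 2) * (D * H)) (hv : j * (D * H') ≤ v)
    (hsu : t < K1 * (s * u)) : n < 4 * K1 * (s * v) := by
  have h1 : n * H < 2 * H' * t := by
    have : (H' + 1) * t ≤ 2 * H' * t := Nat.mul_le_mul_right t (by omega)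
    omega
  have h2 : K1 * (s * u) ≤ K1 * (s * (2 * j * (D * H))) := by
    apply Nat.mul_le_mul_left
    apply Nat.mul_le_mul_left
    refine le_trans hu.le ?_
    exact Nat.mul_le_mul_right _ (by omega)
  have h3 : 2 * H' * t ≤ 2 * H' * (K1 * (s * (2 * j * (D * H)))) :=
    Nat.mul_le_mul_left _ (by omega)
  have h4 : 2 * H' * (K1 * (s * (2 * j * (D * H)))) = 4 * K1 * (s * (j * (D * H'))) * H := by ring
  have h5 : 4 * K1 * (s * (j * (D * H'))) ≤ 4 * K1 * (s * v) :=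
    Nat.mul_le_mul_left _ (Nat.mul_le_mul_left _ hv)
  have h6 : n * H < 4 * K1 * (s * v) * H := by
    calc n * H < 2 * H' * t := h1
      _ ≤ _ := h3
      _ = 4 * K1 * (s * (j * (D * H'))) * H := h4
      _ ≤ 4 * K1 * (s * v) * H := Nat.mul_le_mul_right H h5
  exact Nat.lt_of_mul_lt_mul_right h6

/-- the weight of the fibre over the rough number `u` -/
noncomputable def gg (σ : ℝ) (A : Finset ℕ) (sp rp : ℕ → ℕ) (u : ℕ) : ℝ :=
  ∑ a ∈ A.filter (fun a => rp a = u), (sp a : ℝ) ^ (-σ)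

/-- the rough numbers in a block -/
def UU (D L j : ℕ) : Finset ℕ := (Ico (j * L) (j * L + L)).filter (fun v => Nat.Coprime v D)

theorem card_UU (D H j : ℕ) : (UU D (D * H) j).card = D.totient * H := card_coprime_Ico D H _

theorem mem_UU {D L j v : ℕ} : v ∈ UU D L j ↔ j * L ≤ v ∧ v < (j + 1) * L ∧ Nat.Coprime v D := by
  unfold UU
  rw [mem_filter, mem_Ico, add_mul, one_mul, and_assoc]

/-- The new set. -/
def BB (D H' : ℕ) (A : Finset ℕ) (sp rp F : ℕ → ℕ) (J : ℕ) : Finset ℕ :=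
  ((Ico 2 J).sigma (fun j => UU D (D * H') j ×ˢ A.filter (fun a => rp a = F j))).image
    (fun x => sp x.2.2 * x.2.1)

theorem mem_BB {F : ℕ → ℕ} {J b : ℕ} : b ∈ BB D H' A sp rp F J ↔
    ∃ j v a, 2 ≤ j ∧ j < J ∧ v ∈ UU D (D * H') j ∧ a ∈ A ∧ rp a = F j ∧ b = sp a * v := by
  unfold BB
  constructor
  · intro h
    obtain ⟨⟨j, v, a⟩, hx, rfl⟩ := mem_image.1 h
    rw [mem_sigma, mem_product, mem_filter, mem_Ico] at hx
    exact ⟨j, v, a, hx.1.1, hx.1.2, hx.2.1, hx.2.2.1, hx.2.2.2, rfl⟩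
  · rintro ⟨j, v, a, h1, h2, h3, h4, h5, rfl⟩
    refine mem_image.2 ⟨⟨j, v, a⟩, ?_, rfl⟩
    rw [mem_sigma, mem_product, mem_filter, mem_Ico]
    exact ⟨⟨h1, h2⟩, h3, h4, h5⟩

theorem UU_block {D L j v : ℕ} (h : v ∈ UU D L j) : v / L = j := by
  rw [mem_UU] at h
  exact Nat.div_eq_of_lt_le h.1 h.2.1

theorem W_BB {F : ℕ → ℕ} {J : ℕ}
    (hA : ∀ a ∈ A, a = sp a * rp a ∧ Sm D (sp a)) :
    W σ (BB D H' A sp rp F J) =
      ∑ j ∈ Ico 2 J, (∑ v ∈ UU D (D * H') j, (v : ℝ) ^ (-σ)) * gg σ A sp rp (F j) := by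
  unfold W BB
  rw [sum_image]
  · rw [sum_sigma]
    refine sum_congr rfl fun j _ => ?_
    rw [sum_product, sum_mul]
    refine sum_congr rfl fun v _ => ?_
    unfold gg
    rw [mul_sum]
    refine sum_congr rfl fun a _ => ?_
    push_cast
    rw [Real.mul_rpow (Nat.cast_nonneg _) (Nat.cast_nonneg _), mul_comm]
  · rintro ⟨j, v, a⟩ hx ⟨j', v', a'⟩ hx' h
    simp only at h
    rw [mem_coe, mem_sigma, mem_product, mem_filter] at hx hx'
    obtain ⟨-, hv, ha, hr⟩ := hx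
    obtain ⟨-, hv', ha', hr'⟩ := hx'
    simp only at hv hv' ha ha' hr hr'
    obtain ⟨h1, h2⟩ := Sm.unique (hA a ha).2 (hA a' ha').2 (mem_UU.1 hv).2.2 (mem_UU.1 hv').2.2 h
    subst h2
    have h3 : j = j' := by rw [← UU_block hv, ← UU_block hv']
    subst h3
    have h4 : a = a' := by
      rw [(hA a ha).1, (hA a' ha').1, hr, hr', h1]
    subst h4
    rfl

theorem prim_BB (hD : D = (4 * K1).factorial)
    (hA : ∀ a ∈ A, a = sp a * rp a ∧ Sm D (sp a)) (hP : Prim A) {F : ℕ → ℕ} {J : ℕ}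
    (hup : ∀ b ∈ BB D H' A sp rp F J, b ≤ n)
    (hlow : ∀ b ∈ BB D H' A sp rp F J, n < 4 * K1 * b) : Prim (BB D H' A sp rp F J) := by
  intro b hb b' hb' hdvd
  have hD0 : 0 < D := by rw [hD]; exact Nat.factorial_pos _
  have hbn := hup b' hb'
  have hbl := hlow b hb
  obtain ⟨q, hq⟩ := hdvd
  have hb0 : 0 < b := by
    rcases Nat.eq_zero_or_pos b with h | h
    · rw [h] at hbl; omega
    · exact h
  have hb'0 : 0 < b' := by
    have := hlow b' hb'
    rcases Nat.eq_zero_or_pos b' with h | h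
    · rw [h] at this; omega
    · exact h
  have hqle : q ≤ 4 * K1 := by
    have h1 : b * q < b * (4 * K1) := by
      rw [← hq, mul_comm b (4 * K1)]; omega
    exact (Nat.lt_of_mul_lt_mul_left h1).le
  have hq0 : 0 < q := by
    rcases Nat.eq_zero_or_pos q with h | h
    · rw [h, mul_zero] at hq; omega
    · exact h
  have hqD : q ∣ D := by rw [hD]; exact Nat.dvd_factorial hq0 hqle
  obtain ⟨j, v, a, hj, -, hv, ha, hr, rfl⟩ := mem_BB.1 hb
  obtain ⟨j', v', a', hj', -, hv', ha', hr', rfl⟩ := mem_BB.1 hb'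
  obtain ⟨hae, k, hk⟩ := hA a ha
  obtain ⟨hae', hs'⟩ := hA a' ha'
  have hqs : Sm D (q * sp a) := ⟨k + 1, by rw [pow_succ']; exact Nat.mul_dvd_mul hqD hk⟩
  have h1 : sp a' * v' = (q * sp a) * v := by rw [hq]; ring
  obtain ⟨h2, h3⟩ := Sm.unique hs' hqs (mem_UU.1 hv').2.2 (mem_UU.1 hv).2.2 h1
  subst h3
  have h4 : j = j' := by rw [← UU_block hv, ← UU_block hv']
  subst h4
  have h5 : a ∣ a' := by
    refine ⟨q, ?_⟩
    rw [hae, hae', h2, hr, hr']; ring
  have h6 := hP a ha a' ha' h5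
  rw [h6]

theorem pow_split {x c : ℝ} (hx : 0 < x) (hc : 0 ≤ c) (σ : ℝ) :
    x * (c * x) ^ (-σ) = x ^ (1 - σ) * c ^ (-σ) := by
  rw [Real.mul_rpow hc hx.le, Real.rpow_sub hx, Real.rpow_one, Real.rpow_neg hx.le]
  ring

theorem weight_target (hσ0 : 0 ≤ σ) (hD : 0 < D) (hH' : 0 < H') {j : ℕ} (hj : 0 < j) :
    (D.totient : ℝ) * ((H' : ℝ) ^ (1 - σ) * (((j + 1 : ℕ) : ℝ) * D) ^ (-σ)) ≤
      ∑ v ∈ UU D (D * H') j, (v : ℝ) ^ (-σ) := by
  have h1 : ∀ v ∈ UU D (D * H') j, (((j + 1 : ℕ) : ℝ) * D * H') ^ (-σ) ≤ (v : ℝ) ^ (-σ) := by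
    intro v hv
    obtain ⟨h2, h3, -⟩ := mem_UU.1 hv
    have h4 : 0 < v := lt_of_lt_of_le (Nat.mul_pos hj (Nat.mul_pos hD hH')) h2
    have h4' : (0 : ℝ) < v := by exact_mod_cast h4
    have h5 : (v : ℝ) ≤ ((j + 1 : ℕ) : ℝ) * D * H' := by
      rw [mul_assoc]
      exact_mod_cast h3.le
    exact Real.rpow_le_rpow_of_nonpos h4' h5 (by linarith)
  have h2 := Finset.card_nsmul_le_sum (UU D (D * H') j) (fun v => (v : ℝ) ^ (-σ)) _ h1
  rw [card_UU, nsmul_eq_mul] at h2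
  refine le_trans (le_of_eq ?_) h2
  have hH0 : (0 : ℝ) < H' := by exact_mod_cast hH'
  rw [← pow_split hH0 (by positivity)]
  push_cast
  ring

theorem gg_nonneg (u : ℕ) : 0 ≤ gg σ A sp rp u :=
  sum_nonneg fun _ _ => Real.rpow_nonneg (Nat.cast_nonneg _) _

theorem weight_source (hσ0 : 0 ≤ σ) (hD : 0 < D) (hH : 0 < H) {j : ℕ}
    (hA : ∀ a ∈ A, a = sp a * rp a ∧ Nat.Coprime (rp a) D) (G : ℝ)
    (hG : ∀ u ∈ UU D (D * H) (j + 1), gg σ A sp rp u ≤ G) (A2 : Finset ℕ) (hA2 : A2 ⊆ A)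
    (hj : ∀ a ∈ A2, rp a / (D * H) = j + 1) :
    ∑ a ∈ A2, (a : ℝ) ^ (-σ) ≤
      (D.totient : ℝ) * ((H : ℝ) ^ (1 - σ) * (((j + 1 : ℕ) : ℝ) * D) ^ (-σ)) * G := by
  have hL : 0 < D * H := Nat.mul_pos hD hH
  have hH0 : (0 : ℝ) < H := by exact_mod_cast hH
  have hD0 : (0 : ℝ) < D := by exact_mod_cast hD
  have hpos : (0 : ℝ) < ((j + 1 : ℕ) : ℝ) * D * H := by positivity
  have hmem : ∀ a ∈ A2, rp a ∈ UU D (D * H) (j + 1) := by
    intro a ha
    rw [mem_UU]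
    have h1 := hj a ha
    have h2 := Nat.div_mul_le_self (rp a) (D * H)
    have h3 := Nat.lt_div_mul_add hL (a := rp a)
    rw [h1] at h2 h3
    refine ⟨h2, ?_, (hA a (hA2 ha)).2⟩
    have h4 : (j + 1 + 1) * (D * H) = (j + 1) * (D * H) + D * H := by ring
    omega
  have h1 : ∀ a ∈ A2, (a : ℝ) ^ (-σ) ≤
      (((j + 1 : ℕ) : ℝ) * D * H) ^ (-σ) * (sp a : ℝ) ^ (-σ) := by
    intro a ha
    obtain ⟨h2, -, -⟩ := mem_UU.1 (hmem a ha)
    have h3 : ((j + 1 : ℕ) : ℝ) * D * H ≤ rp a := by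
      rw [mul_assoc]; exact_mod_cast h2
    have h4 : (a : ℝ) = (sp a : ℝ) * rp a := by
      have := (hA a (hA2 ha)).1
      exact_mod_cast this
    rw [h4, Real.mul_rpow (Nat.cast_nonneg _) (Nat.cast_nonneg _), mul_comm]
    exact mul_le_mul_of_nonneg_right (Real.rpow_le_rpow_of_nonpos hpos h3 (by linarith))
      (Real.rpow_nonneg (Nat.cast_nonneg _) _)
  have h2 : ∑ a ∈ A2, (sp a : ℝ) ^ (-σ) ≤ (D.totient * H : ℕ) * G := by
    rw [← sum_fiberwise_of_maps_to hmem]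
    calc ∑ u ∈ UU D (D * H) (j + 1), ∑ a ∈ A2.filter (fun a => rp a = u), (sp a : ℝ) ^ (-σ)
        ≤ ∑ u ∈ UU D (D * H) (j + 1), G := by
          apply sum_le_sum
          intro u hu
          refine le_trans ?_ (hG u hu)
          unfold gg
          apply sum_le_sum_of_subset_of_nonneg
          · exact filter_subset_filter _ hA2
          · intro _ _ _
            exact Real.rpow_nonneg (Nat.cast_nonneg _) _
      _ = (D.totient * H : ℕ) * G := by
          rw [sum_const, card_UU, nsmul_eq_mul]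
  calc ∑ a ∈ A2, (a : ℝ) ^ (-σ)
      ≤ ∑ a ∈ A2, (((j + 1 : ℕ) : ℝ) * D * H) ^ (-σ) * (sp a : ℝ) ^ (-σ) := sum_le_sum h1
    _ = (((j + 1 : ℕ) : ℝ) * D * H) ^ (-σ) * ∑ a ∈ A2, (sp a : ℝ) ^ (-σ) := by rw [mul_sum]
    _ ≤ (((j + 1 : ℕ) : ℝ) * D * H) ^ (-σ) * ((D.totient * H : ℕ) * G) :=
        mul_le_mul_of_nonneg_left h2 (Real.rpow_nonneg hpos.le _)
    _ = _ := by
        rw [← pow_split hH0 (by positivity)]
        push_cast
        ring

/-- the elements with a small rough part -/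
theorem small_rough (hσ0 : 0 ≤ σ) (hD : D = (4 * K1).factorial) (hK1 : 0 < K1) (ht : 0 < t)
    (M : ℕ) (hA : ∀ a ∈ A, a = sp a * rp a ∧ Sm D (sp a))
    (hA1 : ∀ a ∈ A, a ≤ t ∧ t < K1 * a) (hr : ∀ a ∈ A, rp a < M) :
    ∑ a ∈ A, (a : ℝ) ^ (-σ) ≤
      (2 : ℝ) ^ (4 * K1 + 1).primesBelow.card * M * (K1 : ℝ) ^ σ * ((t : ℝ) ^ (-σ) * Real.sqrt t) := by
  have hD0 : 0 < D := by rw [hD]; exact Nat.factorial_pos _
  have hcard : A.card ≤ (2 ^ (4 * K1 + 1).primesBelow.card * t.sqrt) * M := by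
    have h1 : A.card ≤ (Nat.smoothNumbersUpTo t (4 * K1 + 1) ×ˢ range M).card := by
      apply card_le_card_of_injOn (fun a => (sp a, rp a))
      · intro a ha
        have ha' : a ∈ A := ha
        obtain ⟨h1, h2⟩ := hA a ha'
        rw [mem_coe, mem_product, Nat.mem_smoothNumbersUpTo, mem_range]
        have h3 : 0 < sp a := h2.pos hD0
        have hrp : 0 < rp a := by
          rcases Nat.eq_zero_or_pos (rp a) with h | h
          · have := (hA1 a ha').2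
            rw [h1, h, mul_zero] at this
            omega
          · exact h
        refine ⟨⟨?_, ?_⟩, hr a ha'⟩
        · have h4 : sp a ≤ sp a * rp a := Nat.le_mul_of_pos_right _ hrp
          have := (hA1 a ha').1
          simp only
          omega
        · rw [Nat.mem_smoothNumbers']
          intro p hp hpd
          obtain ⟨k, hk⟩ := h2
          have h5 : p ∣ D := hp.dvd_of_dvd_pow (hpd.trans hk)
          rw [hD, hp.dvd_factorial] at h5
          omega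
      · intro a ha b hb hab
        simp only [Prod.mk.injEq] at hab
        rw [(hA a ha).1, (hA b hb).1, hab.1, hab.2]
    rw [card_product, card_range] at h1
    exact h1.trans (Nat.mul_le_mul_right M (Nat.smoothNumbersUpTo_card_le t (4 * K1 + 1)))
  have ht0 : (0 : ℝ) < t := by exact_mod_cast ht
  have hK0 : (0 : ℝ) < K1 := by exact_mod_cast hK1
  have h1 : ∀ a ∈ A, (a : ℝ) ^ (-σ) ≤ (K1 : ℝ) ^ σ * (t : ℝ) ^ (-σ) := by
    intro a ha
    have h2 : (t : ℝ) / K1 ≤ a := by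
      rw [div_le_iff₀ hK0, mul_comm]
      exact_mod_cast (hA1 a ha).2.le
    have h3 : (a : ℝ) ^ (-σ) ≤ ((t : ℝ) / K1) ^ (-σ) :=
      Real.rpow_le_rpow_of_nonpos (by positivity) h2 (by linarith)
    rw [Real.div_rpow ht0.le hK0.le, Real.rpow_neg hK0.le, div_inv_eq_mul, mul_comm] at h3
    exact h3
  have h2 := Finset.sum_le_card_nsmul A (fun a => (a : ℝ) ^ (-σ)) _ h1
  rw [nsmul_eq_mul] at h2
  refine h2.trans ?_
  have h3 : (A.card : ℝ) ≤ (2 : ℝ) ^ (4 * K1 + 1).primesBelow.card * Real.sqrt t * M := by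
    have h4 : (A.card : ℝ) ≤ (2 ^ (4 * K1 + 1).primesBelow.card * (t.sqrt : ℝ)) * M := by
      exact_mod_cast hcard
    refine h4.trans ?_
    have h5 : (t.sqrt : ℝ) ≤ Real.sqrt t := Real.nat_sqrt_le_real_sqrt
    gcongr
  have h4 : 0 ≤ (K1 : ℝ) ^ σ * (t : ℝ) ^ (-σ) := by positivity
  calc (A.card : ℝ) * ((K1 : ℝ) ^ σ * (t : ℝ) ^ (-σ))
      ≤ ((2 : ℝ) ^ (4 * K1 + 1).primesBelow.card * Real.sqrt t * M) *
        ((K1 : ℝ) ^ σ * (t : ℝ) ^ (-σ)) := mul_le_mul_of_nonneg_right h3 h4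
    _ = _ := by ring

theorem core_ineq (hσ0 : 0 ≤ σ) (hK1 : 0 < K1) (hH : 2 ≤ H) (hD : D = (4 * K1).factorial)
    (hH' : H' = n * H / t) (ht : 0 < t) (htn : t ≤ n) (hA : ∀ a ∈ A, a ≤ t ∧ t < K1 * a)
    (hP : Prim A) : ∃ B : Finset ℕ, B ⊆ Icc 1 n ∧ Prim B ∧
      ((H' : ℝ) / H) ^ (1 - σ) * (W σ A - (2 : ℝ) ^ (4 * K1 + 1).primesBelow.card *
        ((3 * (D * H) : ℕ) : ℝ) * (K1 : ℝ) ^ σ * ((t : ℝ) ^ (-σ) * Real.sqrt t)) ≤ W σ B := by
  have hD0 : 0 < D := by rw [hD]; exact Nat.factorial_pos _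
  have hH0 : 0 < H := by omega
  have hL : 0 < D * H := Nat.mul_pos hD0 hH0
  have hx : ∀ m : ℕ, ∃ s u : ℕ, 1 ≤ m → m = s * u ∧ Sm D s ∧ Nat.Coprime u D := by
    intro m
    by_cases hm : 1 ≤ m
    · obtain ⟨s, u, h⟩ := decomp D m hm
      exact ⟨s, u, fun _ => h⟩
    · exact ⟨0, 0, fun h => absurd h hm⟩
  choose sp rp hsr using hx
  have hA0 : ∀ a ∈ A, 1 ≤ a := by
    intro a ha
    have := (hA a ha).2
    rcases Nat.eq_zero_or_pos a with h | h
    · rw [h, mul_zero] at this; omega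
    · exact h
  have hA' : ∀ a ∈ A, a = sp a * rp a ∧ Sm D (sp a) := fun a ha =>
    ⟨(hsr a (hA0 a ha)).1, (hsr a (hA0 a ha)).2.1⟩
  have hA'' : ∀ a ∈ A, a = sp a * rp a ∧ Nat.Coprime (rp a) D := fun a ha =>
    ⟨(hsr a (hA0 a ha)).1, (hsr a (hA0 a ha)).2.2⟩
  -- the best rough number in each block
  have hF : ∀ j : ℕ, ∃ u ∈ UU D (D * H) (j + 1), ∀ u' ∈ UU D (D * H) (j + 1),
      gg σ A sp rp u' ≤ gg σ A sp rp u := by
    intro j
    apply Finset.exists_max_image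
    rw [← Finset.card_pos, card_UU]
    exact Nat.mul_pos (Nat.totient_pos.2 hD0) hH0
  choose F hF1 hF2 using hF
  have hH'a : H' * t ≤ n * H := by rw [hH']; exact Nat.div_mul_le_self _ _
  have hH'b : n * H < (H' + 1) * t := by
    rw [hH', add_mul, one_mul]; exact Nat.lt_div_mul_add ht
  have hH'2 : 2 ≤ H' := by
    rw [hH', Nat.le_div_iff_mul_le ht]
    calc 2 * t ≤ H * n := Nat.mul_le_mul hH htn
      _ = n * H := Nat.mul_comm _ _
  have hup : ∀ b ∈ BB D H' A sp rp F (t + 2), b ≤ n := by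
    intro b hb
    obtain ⟨j, v, a, hj, -, hv, ha, hr, rfl⟩ := mem_BB.1 hb
    refine size_up hH0 hH'a (mem_UU.1 (hF1 j)).1 (mem_UU.1 hv).2.1 ?_
    rw [← hr, ← (hA' a ha).1]
    exact (hA a ha).1
  have hlow : ∀ b ∈ BB D H' A sp rp F (t + 2), n < 4 * K1 * b := by
    intro b hb
    obtain ⟨j, v, a, hj, -, hv, ha, hr, rfl⟩ := mem_BB.1 hb
    refine size_low hH'2 hH'b hj (mem_UU.1 (hF1 j)).2.1 (mem_UU.1 hv).1 ?_
    rw [← hr, ← (hA' a ha).1]
    exact (hA a ha).2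
  refine ⟨BB D H' A sp rp F (t + 2), ?_, prim_BB hD hA' hP hup hlow, ?_⟩
  · intro b hb
    rw [mem_Icc]
    refine ⟨?_, hup b hb⟩
    have := hlow b hb
    rcases Nat.eq_zero_or_pos b with h | h
    · rw [h, mul_zero] at this; omega
    · exact h
  · -- the weights
    set c : ℕ → ℝ := fun j => (D.totient : ℝ) * (((j + 1 : ℕ) : ℝ) * D) ^ (-σ) *
      gg σ A sp rp (F j) with hc
    have hHr : (0 : ℝ) < H := by exact_mod_cast hH0
    have hH'r : (0 : ℝ) < H' := by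
      have : 0 < H' := by omega
      exact_mod_cast this
    have hT : (H' : ℝ) ^ (1 - σ) * ∑ j ∈ Ico 2 (t + 2), c j ≤
        W σ (BB D H' A sp rp F (t + 2)) := by
      rw [W_BB hA', mul_sum]
      apply sum_le_sum
      intro j hj
      rw [mem_Ico] at hj
      have h1 := weight_target (σ := σ) (H' := H') hσ0 hD0 (by omega) (show 0 < j by omega)
      have h2 := mul_le_mul_of_nonneg_right h1 (gg_nonneg (σ := σ) (A := A) (sp := sp) (rp := rp) (F j))
      refine le_trans (le_of_eq ?_) h2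
      simp only [hc]
      ring
    have hS : W σ A ≤ (2 : ℝ) ^ (4 * K1 + 1).primesBelow.card *
        ((3 * (D * H) : ℕ) : ℝ) * (K1 : ℝ) ^ σ * ((t : ℝ) ^ (-σ) * Real.sqrt t) +
        (H : ℝ) ^ (1 - σ) * ∑ j ∈ Ico 2 (t + 2), c j := by
      unfold W
      rw [← sum_filter_add_sum_filter_not A (fun a => rp a < 3 * (D * H))]
      apply add_le_add
      · apply small_rough hσ0 hD hK1 ht (3 * (D * H))
        · intro a ha
          exact hA' a (mem_of_mem_filter a ha)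
        · intro a ha
          exact hA a (mem_of_mem_filter a ha)
        · intro a ha
          exact (mem_filter.1 ha).2
      · have hmaps : ∀ a ∈ A.filter (fun a => ¬ rp a < 3 * (D * H)),
            rp a / (D * H) - 1 ∈ Ico 2 (t + 2) := by
          intro a ha
          obtain ⟨ha1, ha2⟩ := mem_filter.1 ha
          have h1 : 3 ≤ rp a / (D * H) := by
            rw [Nat.le_div_iff_mul_le hL]; omega
          have h2 : rp a / (D * H) ≤ rp a := Nat.div_le_self _ _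
          have h3 : rp a ≤ a := by
            have h4 := (hA' a ha1).1
            have h5 : 0 < sp a := (hA' a ha1).2.pos hD0
            calc rp a ≤ sp a * rp a := Nat.le_mul_of_pos_left _ h5
              _ = a := h4.symm
          have h6 := (hA a ha1).1
          rw [mem_Ico]
          omega
        rw [← sum_fiberwise_of_maps_to hmaps, mul_sum]
        apply sum_le_sum
        intro j hj
        have h1 := weight_source (σ := σ) (H := H) (j := j) hσ0 hD0 hH0 hA'' (gg σ A sp rp (F j)) (hF2 j)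
          ((A.filter (fun a => ¬ rp a < 3 * (D * H))).filter
            (fun a => rp a / (D * H) - 1 = j))
          ((filter_subset _ _).trans (filter_subset _ _)) (by
            intro a ha
            obtain ⟨ha0, ha1⟩ := mem_filter.1 ha
            have h2 := hmaps a ha0
            rw [mem_Ico] at h2
            omega)
        refine h1.trans (le_of_eq ?_)
        simp only [hc]
        ring
    rw [Real.div_rpow hH'r.le hHr.le, div_mul_eq_mul_div, div_le_iff₀ (Real.rpow_pos_of_pos hHr _)]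
    have hpos : 0 ≤ (H' : ℝ) ^ (1 - σ) := Real.rpow_nonneg hH'r.le _
    have hpos2 : 0 ≤ (H : ℝ) ^ (1 - σ) := Real.rpow_nonneg hHr.le _
    calc (H' : ℝ) ^ (1 - σ) * (W σ A - (2 : ℝ) ^ (4 * K1 + 1).primesBelow.card *
        ((3 * (D * H) : ℕ) : ℝ) * (K1 : ℝ) ^ σ * ((t : ℝ) ^ (-σ) * Real.sqrt t))
        ≤ (H' : ℝ) ^ (1 - σ) * ((H : ℝ) ^ (1 - σ) * ∑ j ∈ Ico 2 (t + 2), c j) := by
          apply mul_le_mul_of_nonneg_left _ hpos
          linarith
      _ = (H : ℝ) ^ (1 - σ) * ((H' : ℝ) ^ (1 - σ) * ∑ j ∈ Ico 2 (t + 2), c j) := by ring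
      _ ≤ (H : ℝ) ^ (1 - σ) * W σ (BB D H' A sp rp F (t + 2)) :=
          mul_le_mul_of_nonneg_left hT hpos2
      _ = _ := by ring

end core

theorem ratio_low {β : ℝ} (hβ0 : 0 < β) (hβ1 : β ≤ 1) {n t H H' : ℕ} (hH : 2 ≤ H) (ht : 0 < t)
    (htn : t ≤ n) (h : n * H < (H' + 1) * t) :
    ((n : ℝ) ^ β / (t : ℝ) ^ β) * (1 - 1 / H) ≤ ((H' : ℝ) / H) ^ β := by
  have ht0 : (0 : ℝ) < t := by exact_mod_cast ht
  have hn0 : (0 : ℝ) < n := by
    have : 0 < n := by omega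
    exact_mod_cast this
  have hH0 : (0 : ℝ) < H := by
    have : 0 < H := by omega
    exact_mod_cast this
  have hH2 : (2 : ℝ) ≤ H := by exact_mod_cast hH
  have hx0 : (0 : ℝ) ≤ 1 - 1 / H := by
    have : (1 : ℝ) / H ≤ 1 := by rw [div_le_one hH0]; linarith
    linarith
  have hx1 : (1 : ℝ) - 1 / H ≤ 1 := by
    have : (0 : ℝ) < 1 / H := by positivity
    linarith
  have h1 : (n : ℝ) * H < ((H' : ℝ) + 1) * t := by exact_mod_cast h
  have htn' : (t : ℝ) ≤ n := by exact_mod_cast htn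
  have h2 : (n : ℝ) / t * (1 - 1 / H) ≤ (H' : ℝ) / H := by
    rw [div_mul_eq_mul_div, div_le_div_iff₀ ht0 hH0]
    have h3 : (n : ℝ) * (1 - 1 / H) * H = n * H - n := by field_simp
    rw [h3]
    nlinarith
  have h4 : ((n : ℝ) / t * (1 - 1 / H)) ^ β ≤ ((H' : ℝ) / H) ^ β :=
    Real.rpow_le_rpow (by positivity) h2 hβ0.le
  rw [Real.mul_rpow (by positivity) hx0, Real.div_rpow hn0.le ht0.le] at h4
  refine le_trans (mul_le_mul_of_nonneg_left ?_ (by positivity)) h4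
  have hxpos : (0 : ℝ) < 1 - 1 / H := by
    have : (1 : ℝ) / H < 1 := by rw [div_lt_one hH0]; linarith
    linarith
  calc (1 : ℝ) - 1 / H = (1 - 1 / H) ^ (1 : ℝ) := (Real.rpow_one _).symm
    _ ≤ (1 - 1 / H) ^ β := Real.rpow_le_rpow_of_exponent_ge hxpos hx1 hβ1

theorem stmtR : StmtR := by
  intro σ hσ0 hσ1 η hη K hK
  -- the trivial case
  rcases le_or_gt 1 η with hη1 | hη1
  · refine ⟨0, fun n t _ _ _ A hA _ => ⟨∅, empty_subset _, ?_, ?_⟩⟩
    · intro a ha; exact absurd ha (notMem_empty a)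
    · have h1 : W σ A / W σ (Icc 1 t) ≤ 1 :=
        div_le_one_of_le₀ (W_mono σ hA) (W_nonneg σ _)
      have h2 : 0 ≤ W σ (∅ : Finset ℕ) / W σ (Icc 1 n) := div_nonneg (W_nonneg σ _) (W_nonneg σ _)
      linarith
  obtain ⟨β, hβ⟩ : ∃ β, β = 1 - σ := ⟨_, rfl⟩
  have hβ0 : 0 < β := by rw [hβ]; linarith
  have hβ1 : β ≤ 1 := by rw [hβ]; linarith
  obtain ⟨H, hH⟩ := exists_nat_gt (4 / η + 2)
  have hη4 : 0 < 4 / η := by positivity
  have hH2 : 2 ≤ H := by
    have : (2 : ℝ) < H := by linarith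
    exact_mod_cast this.le
  have hH0 : (0 : ℝ) < H := by linarith
  have hH1 : (1 : ℝ) / H ≤ η / 4 := by
    rw [div_le_iff₀ hH0]
    have h1 : 4 / η < H := by linarith
    rw [div_lt_iff₀ hη] at h1
    linarith
  -- the constant K1
  have hev : ∀ (c : ℝ) (γ : ℝ), 0 < γ → ∃ N : ℕ, ∀ m : ℕ, N ≤ m → c ≤ (m : ℝ) ^ γ := by
    intro c γ hγ
    have h1 : Filter.Tendsto (fun m : ℕ => (m : ℝ) ^ γ) Filter.atTop Filter.atTop :=
      (tendsto_rpow_atTop hγ).comp tendsto_natCast_atTop_atTop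
    exact Filter.eventually_atTop.1 (h1.eventually_ge_atTop c)
  obtain ⟨N1, hN1⟩ := hev (4 / (β * η)) β hβ0
  obtain ⟨K1, hK1d⟩ : ∃ K1, K1 = N1 + 1 := ⟨_, rfl⟩
  have hK1 : 0 < K1 := by omega
  have hK1r : (0 : ℝ) < K1 := by exact_mod_cast hK1
  have hK1b : 4 / (β * η) ≤ (K1 : ℝ) ^ β := hN1 K1 (by omega)
  obtain ⟨D, hD⟩ : ∃ D, D = (4 * K1).factorial := ⟨_, rfl⟩
  obtain ⟨C, hC⟩ : ∃ C : ℝ, C = (2 : ℝ) ^ (4 * K1 + 1).primesBelow.card *
    ((3 * (D * H) : ℕ) : ℝ) * (K1 : ℝ) ^ σ := ⟨_, rfl⟩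
  obtain ⟨N2, hN2⟩ := hev (4 / η) β hβ0
  obtain ⟨N3, hN3⟩ := hev (4 * C / η) (1 / 2) (by norm_num)
  refine ⟨K * (N2 + N3 + 1), ?_⟩
  intro n t hn htn hnt A hA hP
  have hKt : K * (N2 + N3 + 1) ≤ K * t := hn.trans hnt
  have ht1 : N2 + N3 + 1 ≤ t := Nat.le_of_mul_le_mul_left hKt (by omega)
  have ht : 0 < t := by omega
  have ht0 : (0 : ℝ) < t := by exact_mod_cast ht
  have hn0 : 0 < n := by omega
  have hn0r : (0 : ℝ) < n := by exact_mod_cast hn0
  have ht2 : 4 / η ≤ (t : ℝ) ^ β := hN2 t (by omega)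
  have ht3 : 4 * C / η ≤ Real.sqrt t := by
    rw [Real.sqrt_eq_rpow]; exact hN3 t (by omega)
  obtain ⟨H', hH'⟩ : ∃ H', H' = n * H / t := ⟨_, rfl⟩
  have hP1 : Prim (A.filter (fun a => t < K1 * a)) := fun a ha b hb hab =>
    hP a (mem_of_mem_filter a ha) b (mem_of_mem_filter b hb) hab
  obtain ⟨B, hB, hBP, hBW⟩ := core_ineq (σ := σ) hσ0 hK1 hH2 hD hH' ht htn
    (A := A.filter (fun a => t < K1 * a)) (fun a ha => by
      obtain ⟨h1, h2⟩ := mem_filter.1 ha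
      exact ⟨(mem_Icc.1 (hA h1)).2, h2⟩) hP1
  rw [← hC, ← hβ] at hBW
  refine ⟨B, hB, hBP, ?_⟩
  obtain ⟨A1, hA1⟩ : ∃ A1, A1 = A.filter (fun a => t < K1 * a) := ⟨_, rfl⟩
  rw [← hA1] at hBW
  have hA1A : A1 ⊆ A := by rw [hA1]; exact filter_subset _ _
  obtain ⟨S, hS⟩ : ∃ S, S = W σ (Icc 1 t) := ⟨_, rfl⟩
  obtain ⟨Sn, hSn⟩ : ∃ Sn, Sn = W σ (Icc 1 n) := ⟨_, rfl⟩
  have htβ : (t : ℝ) ^ β ≤ S := by rw [hS, hβ]; exact le_W' hσ0 t ht
  have htβ0 : 0 < (t : ℝ) ^ β := Real.rpow_pos_of_pos ht0 _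
  have hS0 : 0 < S := by linarith
  have hSn0 : 0 < Sn := by
    have : (n : ℝ) ^ β ≤ Sn := by rw [hSn, hβ]; exact le_W' hσ0 n hn0
    have h2 : 0 < (n : ℝ) ^ β := Real.rpow_pos_of_pos hn0r _
    linarith
  rw [← hS, ← hSn]
  -- the small elements
  have hsmall : W σ A ≤ W σ A1 + η / 4 * S := by
    have h1 : W σ A ≤ W σ A1 + W σ (Icc 1 (t / K1)) := by
      unfold W
      rw [← sum_filter_add_sum_filter_not A (fun a => t < K1 * a), hA1]
      apply add_le_add le_rfl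
      apply sum_le_sum_of_subset_of_nonneg
      · intro a ha
        obtain ⟨h1, h2⟩ := mem_filter.1 ha
        rw [mem_Icc, Nat.le_div_iff_mul_le hK1]
        have := (mem_Icc.1 (hA h1)).1
        refine ⟨this, ?_⟩
        rw [mul_comm]; omega
      · intro a _ _
        exact Real.rpow_nonneg (Nat.cast_nonneg _) _
    have h2 := W_le hσ0 hσ1 (t / K1)
    rw [← hβ] at h2
    have h3 : ((t / K1 : ℕ) : ℝ) ^ β ≤ (t : ℝ) ^ β / (K1 : ℝ) ^ β := by
      rw [← Real.div_rpow ht0.le hK1r.le]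
      exact Real.rpow_le_rpow (Nat.cast_nonneg _) Nat.cast_div_le hβ0.le
    have h4 : (t : ℝ) ^ β / (K1 : ℝ) ^ β ≤ (t : ℝ) ^ β * (β * η / 4) := by
      rw [div_eq_mul_inv]
      apply mul_le_mul_of_nonneg_left _ htβ0.le
      have h5 : β * η / 4 = (4 / (β * η))⁻¹ := by rw [inv_div]
      rw [h5]
      exact inv_anti₀ (by positivity) hK1b
    have h5 : β * W σ (Icc 1 (t / K1)) ≤ β * (η / 4 * S) := by
      calc β * W σ (Icc 1 (t / K1)) ≤ (t : ℝ) ^ β * (β * η / 4) := h2.trans (h3.trans h4)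
        _ ≤ S * (β * η / 4) := mul_le_mul_of_nonneg_right htβ (by positivity)
        _ = β * (η / 4 * S) := by ring
    have h6 := le_of_mul_le_mul_left h5 hβ0
    linarith
  -- the elements with small rough part
  have hE : C * ((t : ℝ) ^ (-σ) * Real.sqrt t) ≤ η / 4 * S := by
    have hs0 : 0 ≤ Real.sqrt t := Real.sqrt_nonneg _
    have hss : Real.sqrt t * Real.sqrt t = t := Real.mul_self_sqrt ht0.le
    have h1 : C ≤ η / 4 * Real.sqrt t := by
      rw [div_le_iff₀ hη] at ht3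
      linarith
    have htσ : 0 < (t : ℝ) ^ (-σ) := Real.rpow_pos_of_pos ht0 _
    calc C * ((t : ℝ) ^ (-σ) * Real.sqrt t)
        ≤ (η / 4 * Real.sqrt t) * ((t : ℝ) ^ (-σ) * Real.sqrt t) :=
          mul_le_mul_of_nonneg_right h1 (by positivity)
      _ = η / 4 * ((t : ℝ) ^ (-σ) * (Real.sqrt t * Real.sqrt t)) := by ring
      _ = η / 4 * (t : ℝ) ^ β := by
          rw [hss, hβ, show 1 - σ = -σ + 1 by ring, Real.rpow_add ht0, Real.rpow_one]
      _ ≤ η / 4 * S := mul_le_mul_of_nonneg_left htβ (by positivity)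
  -- the ratio
  have hH'b : n * H < (H' + 1) * t := by
    rw [hH', add_mul, one_mul]; exact Nat.lt_div_mul_add ht
  have hrat := ratio_low hβ0 hβ1 hH2 ht htn hH'b
  obtain ⟨P, hPd⟩ : ∃ P : ℝ, P = ((H' : ℝ) / H) ^ β := ⟨_, rfl⟩
  rw [← hPd] at hrat hBW
  have hP0 : 0 ≤ P := by rw [hPd]; positivity
  have hPS : (1 - η / 2) * Sn ≤ P * S := by
    have h1 : β * Sn ≤ (n : ℝ) ^ β := by rw [hSn, hβ]; exact W_le hσ0 hσ1 n
    have h2 : (t : ℝ) ^ β - 1 ≤ β * S := by rw [hS, hβ]; exact le_W hσ0 hσ1 t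
    have hnβ : 0 < (n : ℝ) ^ β := Real.rpow_pos_of_pos hn0r _
    have h3 : (1 - η / 2) * (n : ℝ) ^ β ≤ P * (β * S) := by
      have ht4 : 1 ≤ η / 4 * (t : ℝ) ^ β := by
        rw [div_le_iff₀ hη] at ht2
        linarith
      have h4 : ((n : ℝ) ^ β / (t : ℝ) ^ β) * (1 - 1 / H) * ((t : ℝ) ^ β - 1) ≤
          P * (β * S) := by
        have h5 : 0 ≤ (t : ℝ) ^ β - 1 := by nlinarith
        calc ((n : ℝ) ^ β / (t : ℝ) ^ β) * (1 - 1 / H) * ((t : ℝ) ^ β - 1)
            ≤ P * ((t : ℝ) ^ β - 1) := mul_le_mul_of_nonneg_right hrat h5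
          _ ≤ P * (β * S) := mul_le_mul_of_nonneg_left h2 hP0
      refine le_trans ?_ h4
      have h6 : ((n : ℝ) ^ β / (t : ℝ) ^ β) * (1 - 1 / H) * ((t : ℝ) ^ β - 1) =
          (n : ℝ) ^ β * ((1 - 1 / H) * (1 - 1 / (t : ℝ) ^ β)) := by
        field_simp
      rw [h6, mul_comm]
      apply mul_le_mul_of_nonneg_left _ hnβ.le
      have h7 : 1 / (t : ℝ) ^ β ≤ η / 4 := by
        rw [div_le_iff₀ htβ0]; exact ht4
      have h8 : 0 < 1 / (t : ℝ) ^ β := by positivity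
      have h9 : (0 : ℝ) < 1 / H := by positivity
      nlinarith [mul_pos h8 h9]
    have h4 : (1 - η / 2) * (β * Sn) ≤ P * (β * S) :=
      le_trans (mul_le_mul_of_nonneg_left h1 (by linarith)) h3
    have h5 : β * ((1 - η / 2) * Sn) ≤ β * (P * S) := by
      calc β * ((1 - η / 2) * Sn) = (1 - η / 2) * (β * Sn) := by ring
        _ ≤ P * (β * S) := h4
        _ = β * (P * S) := by ring
    exact le_of_mul_le_mul_left h5 hβ0
  -- conclusion
  obtain ⟨X, hX⟩ : ∃ X, X = W σ A1 - C * ((t : ℝ) ^ (-σ) * Real.sqrt t) := ⟨_, rfl⟩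
  rw [← hX] at hBW
  have hC0 : 0 ≤ C * ((t : ℝ) ^ (-σ) * Real.sqrt t) := by
    have : 0 ≤ C := by rw [hC]; positivity
    positivity
  have hXS : X ≤ S := by
    have h1 : W σ A1 ≤ S := by rw [hS]; exact W_mono σ (hA1A.trans hA)
    linarith
  have hAX : W σ A ≤ X + η / 2 * S := by linarith
  obtain ⟨w, hw⟩ : ∃ w, w = W σ B / Sn := ⟨_, rfl⟩
  have hw0 : 0 ≤ w := by rw [hw]; exact div_nonneg (W_nonneg σ B) hSn0.le
  have hwS : w * Sn = W σ B := by rw [hw]; field_simp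
  rw [← hw, div_le_iff₀ hS0]
  have hfin : X ≤ S * w + η / 2 * S := by
    rcases le_or_gt X 0 with h | h
    · have : 0 ≤ S * w := by positivity
      have : 0 < η / 2 * S := by positivity
      linarith
    · have h1 : ((1 - η / 2) * X) * Sn ≤ (S * w) * Sn := by
        calc ((1 - η / 2) * X) * Sn = X * ((1 - η / 2) * Sn) := by ring
          _ ≤ X * (P * S) := mul_le_mul_of_nonneg_left hPS h.le
          _ = S * (P * X) := by ring
          _ ≤ S * W σ B := mul_le_mul_of_nonneg_left hBW hS0.le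
          _ = (S * w) * Sn := by rw [← hwS]; ring
      have h2 := le_of_mul_le_mul_right h1 hSn0
      have h3 : η / 2 * X ≤ η / 2 * S := mul_le_mul_of_nonneg_left hXS (by positivity)
      linarith
  linarith

end Pool.Agent.R466.PD
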